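import Mathlib

/-!
# Zeros of smooth functions on an interval
-/

set_option autoImplicit false

open Set Filter Topology

namespace Pool.Agent.InvSub

/-- smooth functions on an open set -/
def Sm (I : Set ℝ) (f : ℝ → ℝ) : Prop := ContDiffOn ℝ (⊤ : ℕ∞) f I

theorem Sm.at {I : Set ℝ} {f : ℝ → ℝ} (hf : Sm I f) (hI : IsOpen I) {x : ℝ} (hx : x ∈ I) :
    ContDiffAt ℝ (⊤ : ℕ∞) f x := ContDiffOn.contDiffAt hf (hI.mem_nhds hx)

theorem Sm.deriv {I : Set ℝ} {f : ℝ → ℝ} (hf : Sm I f) (hI : IsOpen I) : Sm I (deriv f) := by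
  unfold Sm at *
  exact hf.deriv_of_isOpen hI (by simp)

theorem Sm.iter {I : Set ℝ} {f : ℝ → ℝ} (hf : Sm I f) (hI : IsOpen I) (i : ℕ) :
    Sm I (iteratedDeriv i f) := by
  induction i with
  | zero => rw [iteratedDeriv_zero]; exact hf
  | succ i ih => rw [iteratedDeriv_succ]; exact ih.deriv hI

theorem Sm.hasDerivAt {I : Set ℝ} {f : ℝ → ℝ} (hf : Sm I f) (hI : IsOpen I) (i : ℕ) {x : ℝ}
    (hx : x ∈ I) : HasDerivAt (iteratedDeriv i f) (iteratedDeriv (i + 1) f x) x := by
  have h := ((hf.iter hI i).at hI hx).differentiableAt (by simp)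
  rw [iteratedDeriv_succ]
  exact h.hasDerivAt

theorem Sm.continuousOn {I : Set ℝ} {f : ℝ → ℝ} (hf : Sm I f) : ContinuousOn f I :=
  ContDiffOn.continuousOn hf

theorem Sm.sum {ι : Type} (s : Finset ι) {I : Set ℝ} {f : ι → ℝ → ℝ} (hf : ∀ i ∈ s, Sm I (f i)) :
    Sm I (fun x => ∑ i ∈ s, f i x) := ContDiffOn.sum hf

theorem Sm.const_mul {I : Set ℝ} {f : ℝ → ℝ} (hf : Sm I f) (c : ℝ) :
    Sm I (fun x => c * f x) := ContDiffOn.mul contDiffOn_const hf

theorem iter_congr {I : Set ℝ} (hI : IsOpen I) {f g : ℝ → ℝ} (h : ∀ x ∈ I, f x = g x) (i : ℕ)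
    {x : ℝ} (hx : x ∈ I) : iteratedDeriv i f x = iteratedDeriv i g x := by
  apply Filter.EventuallyEq.iteratedDeriv_eq
  filter_upwards [hI.mem_nhds hx] with y hy using h y hy

theorem iter_lin {n : ℕ} {I : Set ℝ} (hI : IsOpen I) {f : Fin n → ℝ → ℝ} (hf : ∀ j, Sm I (f j))
    (c : Fin n → ℝ) (i : ℕ) {x : ℝ} (hx : x ∈ I) :
    iteratedDeriv i (fun x => ∑ j, c j * f j x) x = ∑ j, c j * iteratedDeriv i (f j) x := by
  induction i generalizing x with
  | zero => simp
  | succ i ih =>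
    rw [iteratedDeriv_succ]
    have h1 : deriv (iteratedDeriv i (fun x => ∑ j, c j * f j x)) x =
        deriv (fun x => ∑ j, c j * iteratedDeriv i (f j) x) x := by
      apply Filter.EventuallyEq.deriv_eq
      filter_upwards [hI.mem_nhds hx] with y hy using ih hy
    rw [h1]
    have h2 : HasDerivAt (fun x => ∑ j, c j * iteratedDeriv i (f j) x)
        (∑ j, c j * iteratedDeriv (i + 1) (f j) x) x := by
      apply HasDerivAt.fun_sum
      intro j _
      exact ((hf j).hasDerivAt hI i hx).const_mul (c j)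
    exact h2.deriv

theorem iter_add' {I : Set ℝ} (hI : IsOpen I) {f g : ℝ → ℝ} (hf : Sm I f) (hg : Sm I g) (i : ℕ)
    {x : ℝ} (hx : x ∈ I) :
    iteratedDeriv i (fun x => f x + g x) x = iteratedDeriv i f x + iteratedDeriv i g x := by
  induction i generalizing x with
  | zero => simp
  | succ i ih =>
    rw [iteratedDeriv_succ]
    have h1 : deriv (iteratedDeriv i (fun x => f x + g x)) x =
        deriv (fun x => iteratedDeriv i f x + iteratedDeriv i g x) x := by
      apply Filter.EventuallyEq.deriv_eq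
      filter_upwards [hI.mem_nhds hx] with y hy using ih hy
    rw [h1]
    exact ((hf.hasDerivAt hI i hx).add (hg.hasDerivAt hI i hx)).deriv

/-! ### Rolle's theorem with multiplicities -/

/-- `f` vanishes at the points `y 0 ≤ ... ≤ y (M-1)`, counted with multiplicity -/
structure Zs (f : ℝ → ℝ) (M : ℕ) (y : ℕ → ℝ) : Prop where
  mono : ∀ i, i + 1 < M → y i ≤ y (i + 1)
  zero : ∀ i j, i + j < M → y i = y (i + j) → iteratedDeriv j f (y i) = 0

theorem Zs.le {f : ℝ → ℝ} {M : ℕ} {y : ℕ → ℝ} (h : Zs f M y) {i j : ℕ} (hij : i ≤ j)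
    (hj : j < M) : y i ≤ y j := by
  induction j, hij using Nat.le_induction with
  | base => exact le_rfl
  | succ j hij ih => exact (ih (by omega)).trans (h.mono j (by omega))

theorem Zs.rolle {I : Set ℝ} (hI : IsOpen I) (hc : I.OrdConnected) {f : ℝ → ℝ} (hf : Sm I f)
    {M : ℕ} {y : ℕ → ℝ} (h : Zs f (M + 1) y) (hy : ∀ i ≤ M, y i ∈ I) :
    ∃ z : ℕ → ℝ, Zs (deriv f) M z ∧ ∀ i < M, y i ≤ z i ∧ z i ≤ y (i + 1) := by
  have key : ∀ i, i < M → ∃ z, y i ≤ z ∧ z ≤ y (i + 1) ∧ deriv f z = 0 ∧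
      (z = y i → y i = y (i + 1)) ∧ (z = y (i + 1) → y i = y (i + 1)) := by
    intro i hi
    rcases (h.mono i (by omega)).eq_or_lt with e | e
    · refine ⟨y i, le_rfl, e.le, ?_, fun _ => e, fun _ => e⟩
      have := h.zero i 1 (by omega) e
      rwa [iteratedDeriv_one] at this
    · have h0 : f (y i) = 0 := by
        have := h.zero i 0 (by omega) rfl
        rwa [iteratedDeriv_zero] at this
      have h1 : f (y (i + 1)) = 0 := by
        have := h.zero (i + 1) 0 (by omega) rfl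
        rwa [iteratedDeriv_zero] at this
      have hsub : Icc (y i) (y (i + 1)) ⊆ I := hc.out (hy i (by omega)) (hy (i + 1) (by omega))
      obtain ⟨z, hz, hz'⟩ := exists_deriv_eq_zero e (hf.continuousOn.mono hsub) (h0.trans h1.symm)
      exact ⟨z, hz.1.le, hz.2.le, hz', fun e' => absurd e' hz.1.ne', fun e' => absurd e' hz.2.ne⟩
  choose! z h1 h2 h3 h4 h5 using key
  refine ⟨z, ⟨fun i hi => (h2 i (by omega)).trans (h1 (i + 1) hi), ?_⟩, fun i hi =>
    ⟨h1 i hi, h2 i hi⟩⟩
  intro i j hij e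
  rcases Nat.eq_zero_or_pos j with rfl | hj
  · rw [iteratedDeriv_zero]; exact h3 i (by omega)
  · have hyle : ∀ a b, a ≤ b → b ≤ M → y a ≤ y b := fun a b hab hb => h.le hab (by omega)
    -- z i = z (i+j) forces everything between to coincide
    have c1 : z i ≤ y (i + 1) := h2 i (by omega)
    have c2 : y (i + 1) ≤ y (i + j) := hyle _ _ (by omega) (by omega)
    have c3 : y (i + j) ≤ z (i + j) := h1 (i + j) hij
    have e1 : z i = y (i + 1) := le_antisymm c1 (by linarith)
    have e2 : z (i + j) = y (i + j) := le_antisymm (by linarith) c3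
    have e3 := h5 i (by omega) e1
    have e4 := h4 (i + j) hij e2
    have e5 : y i = y (i + (j + 1)) := by
      rw [e3, ← e1, e, e2, e4]
      rfl
    have := h.zero i (j + 1) (by omega) e5
    rw [iteratedDeriv_succ'] at this
    rwa [e1, ← e3]

theorem Zs.exists_zero {I : Set ℝ} (hI : IsOpen I) (hc : I.OrdConnected) {M : ℕ} :
    ∀ {f : ℝ → ℝ} (_ : Sm I f) {y : ℕ → ℝ} (_ : Zs f M y) (_ : ∀ i < M, y i ∈ I)
    {j : ℕ} (_ : j < M), ∃ z, y 0 ≤ z ∧ z ≤ y (M - 1) ∧ iteratedDeriv j f z = 0 := by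
  induction M with
  | zero => intro f _ y _ _ j hj; omega
  | succ M ih =>
    intro f hf y h hy j hj
    rcases Nat.eq_zero_or_pos j with rfl | hj0
    · exact ⟨y 0, le_rfl, h.le (Nat.zero_le _) (by omega), h.zero 0 0 (by omega) rfl⟩
    · obtain ⟨z, hz, hyz⟩ := h.rolle hI hc hf (fun i hi => hy i (by omega))
      have hzI : ∀ i < M, z i ∈ I := fun i hi =>
        hc.out (hy i (by omega)) (hy (i + 1) (by omega)) ⟨(hyz i hi).1, (hyz i hi).2⟩
      obtain ⟨j', rfl⟩ : ∃ j', j = j' + 1 := ⟨j - 1, by omega⟩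
      obtain ⟨w, hw1, hw2, hw3⟩ := ih (hf.deriv hI) hz hzI (j := j') (by omega)
      refine ⟨w, (hyz 0 (by omega)).1.trans hw1, hw2.trans ?_, ?_⟩
      · have := (hyz (M - 1) (by omega)).2
        rwa [show M - 1 + 1 = M + 1 - 1 by omega] at this
      · rw [iteratedDeriv_succ']; exact hw3

/-- three zeros of multiplicity `k` -/
theorem Zs.three {f : ℝ → ℝ} {k : ℕ} {y1 y2 y3 : ℝ} (h12 : y1 < y2) (h23 : y2 < y3)
    (h1 : ∀ j < k, iteratedDeriv j f y1 = 0) (h2 : ∀ j < k, iteratedDeriv j f y2 = 0)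
    (h3 : ∀ j < k, iteratedDeriv j f y3 = 0) :
    Zs f (3 * k) (fun i => if i < k then y1 else if i < 2 * k then y2 else y3) := by
  constructor
  · intro i hi
    split_ifs <;> first | exact le_rfl | linarith
  · intro i j hij e
    beta_reduce at e ⊢
    by_cases a1 : i < k
    · rw [if_pos a1] at e ⊢
      by_cases b1 : i + j < k
      · exact h1 j (by omega)
      · rw [if_neg b1] at e
        split_ifs at e <;> linarith
    · rw [if_neg a1] at e ⊢
      rw [if_neg (show ¬ i + j < k by omega)] at e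
      by_cases a2 : i < 2 * k
      · rw [if_pos a2] at e ⊢
        by_cases b2 : i + j < 2 * k
        · exact h2 j (by omega)
        · rw [if_neg b2] at e
          linarith
      · rw [if_neg a2]
        exact h3 j (by omega)

end Pool.Agent.InvSub
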