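import Pool.Agent.InvSub.Ode

/-!
# The curve of elements with a zero of maximal order
-/

set_option autoImplicit false

open Set Filter Topology

namespace Pool.Agent.InvSub

namespace FundSys

variable {I : Set ℝ} {N : ℕ} {a f : Fin (N + 1) → ℝ → ℝ}

/-- the coefficients of an element with a zero of order `N` at `y` -/
noncomputable def E (f : Fin (N + 1) → ℝ → ℝ) (y : ℝ) (j : Fin (N + 1)) : ℝ :=
  (W f y).adjugate j (Fin.last N)

theorem smooth_det {n : ℕ} {I : Set ℝ} {A : ℝ → Matrix (Fin n) (Fin n) ℝ}
    (hA : ∀ i j, Sm I (fun y => A y i j)) : Sm I (fun y => (A y).det) := by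
  unfold Sm
  simp only [Matrix.det_apply]
  refine ContDiffOn.sum fun σ _ => ?_
  refine ContDiffOn.const_smul _ ?_
  refine contDiffOn_prod fun i _ => hA _ _

theorem E_smooth (h : FundSys I (N + 1) a f) (hI : IsOpen I) (j : Fin (N + 1)) :
    Sm I (fun y => E f y j) := by
  unfold E
  simp only [Matrix.adjugate_apply]
  refine smooth_det fun i l => ?_
  by_cases hi : i = Fin.last N
  · subst hi
    have : (fun y => (W f y).updateRow (Fin.last N) (Pi.single j 1) (Fin.last N) l) =
        fun _ => (Pi.single j 1 : Fin (N + 1) → ℝ) l := by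
      funext y
      rw [Matrix.updateRow_self]
    rw [this]
    exact contDiffOn_const
  · have : (fun y => (W f y).updateRow (Fin.last N) (Pi.single j 1) i l) =
        fun y => iteratedDeriv i (f l) y := by
      funext y
      rw [Matrix.updateRow_ne hi]
      rfl
    rw [this]
    exact Sm.iter (h.smooth l) hI i

theorem E_zero (f : Fin (N + 1) → ℝ → ℝ) (y : ℝ) (i : ℕ) (hi : i ≤ N) :
    ∑ j, E f y j * iteratedDeriv i (f j) y = if i = N then (W f y).det else 0 := by
  have h := congrFun (congrFun (Matrix.mul_adjugate (W f y)) ⟨i, by omega⟩) (Fin.last N)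
  rw [Matrix.mul_apply, Matrix.smul_apply, Matrix.one_apply] at h
  have e : (∑ j, E f y j * iteratedDeriv i (f j) y) =
      ∑ j, (W f y) ⟨i, by omega⟩ j * (W f y).adjugate j (Fin.last N) :=
    Finset.sum_congr rfl fun j _ => mul_comm _ _
  rw [e, h]
  by_cases hiN : i = N
  · rw [if_pos (Fin.ext hiN), if_pos hiN, smul_eq_mul, mul_one]
  · rw [if_neg hiN, if_neg (fun h' => hiN (congrArg Fin.val h')), smul_zero]

theorem E_pair (h : FundSys I (N + 1) a f) (hI : IsOpen I) (l : ℕ) :
    ∀ i, i + l ≤ N → ∀ y ∈ I, ∑ j, iteratedDeriv l (fun y => E f y j) y * iteratedDeriv i (f j) y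
      = if i + l = N then (-1) ^ l * (W f y).det else 0 := by
  induction l with
  | zero =>
    intro i hi y _
    simp only [iteratedDeriv_zero, Nat.add_zero, pow_zero, one_mul]
    exact E_zero f y i (by omega)
  | succ l ih =>
    intro i hi y hy
    have h1 := ih (i + 1) (by omega) y hy
    have h2 : ∀ z ∈ I, ∑ j, iteratedDeriv l (fun y => E f y j) z * iteratedDeriv i (f j) z = 0 := by
      intro z hz
      rw [ih i (by omega) z hz, if_neg (by omega)]
    have hd : HasDerivAt (fun z => ∑ j, iteratedDeriv l (fun y => E f y j) z *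
        iteratedDeriv i (f j) z)
        (∑ j, (iteratedDeriv (l + 1) (fun y => E f y j) y * iteratedDeriv i (f j) y +
          iteratedDeriv l (fun y => E f y j) y * iteratedDeriv (i + 1) (f j) y)) y := by
      apply HasDerivAt.fun_sum
      intro j _
      exact ((h.E_smooth hI j).hasDerivAt hI l hy).mul (Sm.hasDerivAt (h.smooth j) hI i hy)
    have hd0 : HasDerivAt (fun z => ∑ j, iteratedDeriv l (fun y => E f y j) z *
        iteratedDeriv i (f j) z) 0 y := by
      have : (fun z => ∑ j, iteratedDeriv l (fun y => E f y j) z * iteratedDeriv i (f j) z)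
          =ᶠ[𝓝 y] fun _ => (0 : ℝ) := by
        filter_upwards [hI.mem_nhds hy] with z hz using h2 z hz
      exact (hasDerivAt_const y (0 : ℝ)).congr_of_eventuallyEq this
    have e := hd.unique hd0
    rw [Finset.sum_add_distrib, h1] at e
    by_cases hiN : i + (l + 1) = N
    · rw [if_pos hiN]
      rw [if_pos (by omega)] at e
      rw [pow_succ]
      linarith
    · rw [if_neg hiN]
      rw [if_neg (by omega)] at e
      linarith

/-- the vectors `E f y`, `y ∈ U`, span everything -/
theorem E_span (h : FundSys I (N + 1) a f) (hI : IsOpen I) (hc : I.OrdConnected) {U : Set ℝ}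
    (hU : IsOpen U) (hUI : U ⊆ I) (hne : U.Nonempty) (cc : Fin (N + 1) → ℝ)
    (h0 : ∀ y ∈ U, ∑ j, cc j * E f y j = 0) : cc = 0 := by
  obtain ⟨y, hy⟩ := hne
  have hyI := hUI hy
  have hder : ∀ l, ∑ j, cc j * iteratedDeriv l (fun y => E f y j) y = 0 := by
    intro l
    have e := iter_lin hU (f := fun j y => E f y j)
      (fun j => ContDiffOn.mono (h.E_smooth hI j) hUI) cc l hy
    rw [← e]
    have e2 := iter_congr hU (f := fun y => ∑ j, cc j * E f y j) (g := fun _ => (0 : ℝ))
      (fun z hz => h0 z hz) l hy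
    rw [e2]
    rcases Nat.eq_zero_or_pos l with rfl | hl
    · simp
    · rw [iteratedDeriv_const]; simp [hl.ne']
  have hdet := h.det_ne hI hc hyI
  obtain ⟨μ, hμ⟩ : ∃ μ : Fin (N + 1) → ℝ, ∀ j, cc j = ∑ i, μ i * iteratedDeriv i (f j) y := by
    have hu : IsUnit (W f y) := (Matrix.isUnit_iff_isUnit_det _).2 (isUnit_iff_ne_zero.2 hdet)
    refine ⟨Matrix.vecMul cc (W f y)⁻¹, fun j => ?_⟩
    have : Matrix.vecMul (Matrix.vecMul cc (W f y)⁻¹) (W f y) = cc := by
      rw [Matrix.vecMul_vecMul, Matrix.nonsing_inv_mul _ ((Matrix.isUnit_iff_isUnit_det _).1 hu),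
        Matrix.vecMul_one]
    have e := congrFun this j
    rw [← e]
    rfl
  have hμ0 : ∀ d i : ℕ, d + i = N → ∀ hi : i < N + 1, μ ⟨i, hi⟩ = 0 := by
    intro d
    induction d using Nat.strong_induction_on with
    | _ d ih =>
      intro i hdi hi
      have e := hder d
      have e1 : ∑ j, cc j * iteratedDeriv d (fun y => E f y j) y =
          ∑ i' : Fin (N + 1), μ i' * ∑ j, iteratedDeriv d (fun y => E f y j) y *
            iteratedDeriv i' (f j) y := by
        simp only [hμ, Finset.mul_sum, Finset.sum_mul]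
        rw [Finset.sum_comm]
        exact Finset.sum_congr rfl fun i' _ => Finset.sum_congr rfl fun j _ => by ring
      rw [e1, Finset.sum_eq_single ⟨i, hi⟩] at e
      · rw [h.E_pair hI d i (by omega) y hyI, if_pos (by omega)] at e
        rcases mul_eq_zero.1 e with e | e
        · exact e
        · exfalso
          rcases mul_eq_zero.1 e with e | e
          · exact pow_ne_zero _ (by norm_num) e
          · exact hdet e
      · intro i' _ hne'
        by_cases hlt : (i' : ℕ) < i
        · rw [h.E_pair hI d i' (by omega) y hyI, if_neg (by omega), mul_zero]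
        · have hgt : i < (i' : ℕ) := by
            rcases lt_trichotomy (i' : ℕ) i with h' | h' | h'
            · exact absurd h' hlt
            · exact absurd (Fin.ext h') hne'
            · exact h'
          have := ih (N - i') (by omega) i' (by omega) i'.2
          rw [show (⟨(i' : ℕ), i'.2⟩ : Fin (N + 1)) = i' from rfl] at this
          rw [this, zero_mul]
      · intro h'; exact absurd (Finset.mem_univ _) h'
  funext j
  rw [hμ j, Pi.zero_apply]
  refine Finset.sum_eq_zero fun i _ => ?_
  rw [show i = ⟨(i : ℕ), i.2⟩ from rfl, hμ0 (N - i) i (by omega) i.2, zero_mul]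

end FundSys

end Pool.Agent.InvSub
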