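import Mathlib

/-!
# Functions with vanishing third differences
-/

set_option autoImplicit false

open Set Filter Topology

namespace Pool.Agent.InvSub

/-- the third difference -/
def D3 {V : Type*} [AddCommGroup V] (G : V → ℝ) (p h1 h2 h3 : V) : ℝ :=
  G (p + h1 + h2 + h3) - G (p + h1 + h2) - G (p + h1 + h3) - G (p + h2 + h3) + G (p + h1) +
    G (p + h2) + G (p + h3) - G p

theorem D3_swap12 {V : Type*} [AddCommGroup V] (G : V → ℝ) (p h1 h2 h3 : V) :
    D3 G p h1 h2 h3 = D3 G p h2 h1 h3 := by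
  unfold D3
  rw [show p + h1 + h2 + h3 = p + h2 + h1 + h3 by abel, show p + h1 + h2 = p + h2 + h1 by abel]
  ring

theorem D3_swap13 {V : Type*} [AddCommGroup V] (G : V → ℝ) (p h1 h2 h3 : V) :
    D3 G p h1 h2 h3 = D3 G p h3 h2 h1 := by
  unfold D3
  rw [show p + h1 + h2 + h3 = p + h3 + h2 + h1 by abel, show p + h1 + h2 = p + h2 + h1 by abel,
    show p + h1 + h3 = p + h3 + h1 by abel, show p + h2 + h3 = p + h3 + h2 by abel]
  ring

theorem D3_add {V : Type*} [AddCommGroup V] (G : V → ℝ) (p h1 h1' h2 h3 : V) :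
    D3 G p (h1 + h1') h2 h3 = D3 G (p + h1) h1' h2 h3 + D3 G p h1 h2 h3 := by
  unfold D3
  rw [show p + (h1 + h1') + h2 + h3 = p + h1 + h1' + h2 + h3 by abel,
    show p + (h1 + h1') + h2 = p + h1 + h1' + h2 by abel,
    show p + (h1 + h1') + h3 = p + h1 + h1' + h3 by abel,
    show p + (h1 + h1') = p + h1 + h1' by abel]
  ring

theorem D3_zero {V : Type*} [AddCommGroup V] (G : V → ℝ) (p h2 h3 : V) :
    D3 G p 0 h2 h3 = 0 := by
  unfold D3
  simp only [add_zero]
  ring

/-- if the third difference vanishes for multiples of elements of a spanning set, it vanishes -/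
theorem D3_span {V : Type*} [AddCommGroup V] [Module ℝ V] (G : V → ℝ) (S : Set V) (h2 h3 : V)
    (h : ∀ p, ∀ s : ℝ, ∀ e ∈ S, D3 G p (s • e) h2 h3 = 0)
    {h1 : V} (h1S : h1 ∈ Submodule.span ℝ S) : ∀ p, ∀ s : ℝ, D3 G p (s • h1) h2 h3 = 0 := by
  induction h1S using Submodule.span_induction with
  | mem x hx => exact fun p s => h p s x hx
  | zero => intro p s; rw [smul_zero]; exact D3_zero G p h2 h3
  | add x y _ _ hx hy =>
    intro p s
    rw [smul_add, D3_add, hx, hy, add_zero]
  | smul a x _ hx =>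
    intro p s
    rw [smul_smul]
    exact hx p _

/-- a function on `ℝⁿ` with vanishing third differences is a quadratic polynomial -/
theorem quad_of_D3 {n : ℕ} {G : (Fin n → ℝ) → ℝ} (hG : Continuous G)
    (h : ∀ h1 h2 h3, D3 G 0 h1 h2 h3 = 0) (v : Fin n → ℝ) :
    G v = ∑ i, ∑ j, (1 / 2 * (G (Pi.single i 1 + Pi.single j 1) - G (Pi.single i 1) -
      G (Pi.single j 1) + G 0)) * v i * v j +
      ∑ i, (G (Pi.single i 1) - G 0 - 1 / 2 * (G (Pi.single i 1 + Pi.single i 1) -
        G (Pi.single i 1) - G (Pi.single i 1) + G 0)) * v i + G 0 := by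
  set b : (Fin n → ℝ) → (Fin n → ℝ) → ℝ := fun x y => G (x + y) - G x - G y + G 0 with hb
  have hadd : ∀ x y z, b (x + y) z = b x z + b y z := by
    intro x y z
    have := h x y z
    simp only [D3, zero_add] at this
    simp only [hb]
    linarith
  have hsymm : ∀ x y, b x y = b y x := by
    intro x y
    simp only [hb]
    rw [add_comm x y]
    ring
  have hcont : ∀ z, Continuous fun x => b x z := by
    intro z
    simp only [hb]
    fun_prop
  -- linear maps
  let L : (Fin n → ℝ) → ((Fin n → ℝ) →L[ℝ] ℝ) := fun z =>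
    (AddMonoidHom.mk' (fun x => b x z) (fun x y => hadd x y z)).toRealLinearMap (hcont z)
  have hL : ∀ x z, L z x = b x z := fun x z => rfl
  have hsmul : ∀ (t : ℝ) x z, b (t • x) z = t * b x z := by
    intro t x z
    rw [← hL, map_smul, smul_eq_mul, hL]
  set A : (Fin n → ℝ) → ℝ := fun x => G x - G 0 - 1 / 2 * b x x with hA
  have hAadd : ∀ x y, A (x + y) = A x + A y := by
    intro x y
    have e1 : b (x + y) (x + y) = b x x + 2 * b x y + b y y := by
      rw [hadd, hsymm x (x + y), hsymm y (x + y), hadd, hadd, hsymm y x]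
      ring
    simp only [hA]
    rw [e1]
    simp only [hb]
    ring
  have hAcont : Continuous A := by
    simp only [hA, hb]
    fun_prop
  let M : (Fin n → ℝ) →L[ℝ] ℝ := (AddMonoidHom.mk' A hAadd).toRealLinearMap hAcont
  have hM : ∀ x, M x = A x := fun x => rfl
  have hv : v = ∑ i, v i • (Pi.single i (1 : ℝ) : Fin n → ℝ) := by
    conv_lhs => rw [← Finset.univ_sum_single v]
    refine Finset.sum_congr rfl fun i _ => ?_
    rw [← Pi.single_smul, smul_eq_mul, mul_one]
  have hAv : A v = ∑ i, A (Pi.single i 1) * v i := by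
    rw [← hM v]
    conv_lhs => rw [hv]
    rw [map_sum]
    refine Finset.sum_congr rfl fun i _ => ?_
    rw [map_smul, smul_eq_mul, hM, mul_comm]
  have hbv : ∀ z, b v z = ∑ i, b (Pi.single i 1) z * v i := by
    intro z
    rw [← hL v]
    conv_lhs => rw [hv]
    rw [map_sum]
    refine Finset.sum_congr rfl fun i _ => ?_
    rw [map_smul, smul_eq_mul, hL, mul_comm]
  have hbvv : b v v = ∑ i, ∑ j, b (Pi.single i 1) (Pi.single j 1) * v i * v j := by
    rw [hbv v]
    refine Finset.sum_congr rfl fun i _ => ?_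
    rw [hsymm (Pi.single i 1) v, hbv, Finset.sum_mul]
    refine Finset.sum_congr rfl fun j _ => ?_
    rw [hsymm (Pi.single j 1) (Pi.single i 1)]
    ring
  have e : G v = 1 / 2 * b v v + A v + G 0 := by
    simp only [hA]; ring
  rw [e, hAv, hbvv, Finset.mul_sum]
  congr 2
  refine Finset.sum_congr rfl fun i _ => ?_
  rw [Finset.mul_sum]
  refine Finset.sum_congr rfl fun j _ => ?_
  simp only [hb]
  ring

end Pool.Agent.InvSub
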