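import Mathlib

/-!
# The operators `A_i` on polynomials of degree at most `2k`
-/

set_option autoImplicit false

open Polynomial

namespace Pool.Agent.InvSub

/-- `A_i[p](t) = ∑_{l ≤ i} (-1)^l C(i,l) (k+l)! t^(i-l) p^(k-l)(t)` -/
noncomputable def opA (k i : ℕ) (p : ℝ[X]) (t : ℝ) : ℝ :=
  ∑ l ∈ Finset.range (i + 1), (-1) ^ l * (i.choose l : ℝ) * ((k + l).factorial : ℝ) * t ^ (i - l) *
    (derivative^[k - l] p).eval t

/-- the same as a polynomial -/
noncomputable def polA (k i : ℕ) (p : ℝ[X]) : ℝ[X] :=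
  ∑ l ∈ Finset.range (i + 1), C ((-1) ^ l * (i.choose l : ℝ) * ((k + l).factorial : ℝ)) *
    X ^ (i - l) * (derivative^[k - l] p)

theorem eval_polA (k i : ℕ) (p : ℝ[X]) (t : ℝ) : (polA k i p).eval t = opA k i p t := by
  unfold polA opA
  rw [eval_finsetSum]
  exact Finset.sum_congr rfl fun l _ => by simp

theorem opA_add (k i : ℕ) (p q : ℝ[X]) (t : ℝ) : opA k i (p + q) t = opA k i p t + opA k i q t := by
  unfold opA
  rw [← Finset.sum_add_distrib]
  refine Finset.sum_congr rfl fun l _ => ?_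
  rw [iterate_map_add, eval_add]
  ring

theorem opA_smul (k i : ℕ) (c : ℝ) (p : ℝ[X]) (t : ℝ) : opA k i (c • p) t = c * opA k i p t := by
  unfold opA
  rw [Finset.mul_sum]
  refine Finset.sum_congr rfl fun l _ => ?_
  rw [iterate_derivative_smul, eval_smul, smul_eq_mul]
  ring

theorem polA_add (k i : ℕ) (p q : ℝ[X]) : polA k i (p + q) = polA k i p + polA k i q := by
  unfold polA
  rw [← Finset.sum_add_distrib]
  refine Finset.sum_congr rfl fun l _ => ?_
  rw [iterate_map_add]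
  ring

theorem polA_smul (k i : ℕ) (c : ℝ) (p : ℝ[X]) : polA k i (c • p) = c • polA k i p := by
  unfold polA
  rw [Finset.smul_sum]
  refine Finset.sum_congr rfl fun l _ => ?_
  rw [iterate_derivative_smul, mul_smul_comm]

theorem opA_pow {k i : ℕ} (hi : i ≤ k) (y t : ℝ) :
    opA k i ((X - C y) ^ (2 * k)) t = ((2 * k).factorial : ℝ) * (t - y) ^ k * y ^ i := by
  unfold opA
  have e : ∀ l ∈ Finset.range (i + 1), (-1 : ℝ) ^ l * (i.choose l : ℝ) * ((k + l).factorial : ℝ) *
      t ^ (i - l) * (derivative^[k - l] ((X - C y) ^ (2 * k))).eval t =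
      ((2 * k).factorial : ℝ) * (t - y) ^ k * ((-(t - y)) ^ l * t ^ (i - l) * (i.choose l : ℝ)) := by
    intro l hl
    have hli : l ≤ i := Nat.lt_succ_iff.1 (Finset.mem_range.1 hl)
    rw [iterate_derivative_X_sub_pow, nsmul_eq_mul, eval_mul, eval_natCast, eval_pow, eval_sub,
      eval_X, eval_C, show 2 * k - (k - l) = k + l by omega]
    have h := Nat.factorial_mul_descFactorial (show k - l ≤ 2 * k by omega)
    rw [show 2 * k - (k - l) = k + l by omega] at h
    have h' : ((k + l).factorial : ℝ) * ((2 * k).descFactorial (k - l) : ℝ) =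
        ((2 * k).factorial : ℝ) := by exact_mod_cast h
    rw [← h', neg_pow (t - y) l, pow_add (t - y) k l]
    ring
  rw [Finset.sum_congr rfl e, ← Finset.mul_sum, ← add_pow]
  congr 1
  ring

/-- the polynomial with given coefficients -/
noncomputable def pol {n : ℕ} (c : Fin n → ℝ) : ℝ[X] := ∑ j : Fin n, C (c j) * X ^ (j : ℕ)

theorem pol_add {n : ℕ} (c d : Fin n → ℝ) : pol (c + d) = pol c + pol d := by
  unfold pol
  rw [← Finset.sum_add_distrib]
  exact Finset.sum_congr rfl fun j _ => by rw [Pi.add_apply, C_add]; ring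

theorem pol_smul {n : ℕ} (a : ℝ) (c : Fin n → ℝ) : pol (a • c) = a • pol c := by
  unfold pol
  rw [Finset.smul_sum]
  exact Finset.sum_congr rfl fun j _ => by
    rw [Pi.smul_apply, smul_eq_mul, C_mul, smul_eq_C_mul]; ring

theorem pol_eval {n : ℕ} (c : Fin n → ℝ) (t : ℝ) : (pol c).eval t = ∑ j : Fin n, c j * t ^ (j : ℕ) := by
  unfold pol
  rw [eval_finsetSum]
  exact Finset.sum_congr rfl fun j _ => by simp

theorem pol_coeff {n : ℕ} (c : Fin n → ℝ) (j : Fin n) : (pol c).coeff j = c j := by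
  unfold pol
  rw [finsetSum_coeff, Finset.sum_eq_single j]
  · simp
  · intro i _ hij
    rw [coeff_C_mul, coeff_X_pow, if_neg (fun h => hij (Fin.ext h.symm)), mul_zero]
  · intro h; exact absurd (Finset.mem_univ _) h

theorem pol_coeff_of_ge {n : ℕ} (c : Fin n → ℝ) {m : ℕ} (hm : n ≤ m) : (pol c).coeff m = 0 := by
  unfold pol
  rw [finsetSum_coeff]
  refine Finset.sum_eq_zero fun j _ => ?_
  rw [coeff_C_mul, coeff_X_pow, if_neg (by omega), mul_zero]

theorem pol_natDegree {n : ℕ} (c : Fin (n + 1) → ℝ) : (pol c).natDegree ≤ n := by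
  rw [natDegree_le_iff_coeff_eq_zero]
  intro m hm
  exact pol_coeff_of_ge c (by omega)

theorem pol_eq {n : ℕ} {p : ℝ[X]} (hp : p.natDegree ≤ n) :
    pol (fun j : Fin (n + 1) => p.coeff j) = p := by
  ext m
  by_cases hm : m < n + 1
  · exact pol_coeff (fun j : Fin (n + 1) => p.coeff j) ⟨m, hm⟩
  · rw [pol_coeff_of_ge _ (by omega), coeff_eq_zero_of_natDegree_lt (by omega)]

theorem pol_eq_zero {n : ℕ} {c : Fin n → ℝ} (h : pol c = 0) : c = 0 := by
  funext j
  rw [← pol_coeff c j, h, coeff_zero, Pi.zero_apply]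

/-- a polynomial with infinitely many roots vanishes -/
theorem eq_zero_of_inf {S : Set ℝ} (hS : S.Infinite) {p : ℝ[X]} (h : ∀ t ∈ S, p.eval t = 0) :
    p = 0 := eq_zero_of_infinite_isRoot p (hS.mono fun t ht => h t ht)

/-- the coefficients of `(X - y)^(2k)` -/
noncomputable def ev (k : ℕ) (y : ℝ) (j : Fin (2 * k + 1)) : ℝ :=
  ((2 * k).choose j : ℝ) * (-y) ^ (2 * k - j)

theorem pol_ev (k : ℕ) (y : ℝ) : pol (ev k y) = (X - C y) ^ (2 * k) := by
  unfold pol ev
  rw [sub_eq_add_neg, add_pow, Finset.sum_range]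
  refine Finset.sum_congr rfl fun j _ => ?_
  rw [← C_neg, ← C_pow, ← C_eq_natCast, C_mul]
  ring

/-- the spanning property -/
theorem span_ev {k : ℕ} {S : Set ℝ} (hS : S.Infinite) {cc : Fin (2 * k + 1) → ℝ}
    (h : ∀ y ∈ S, ∑ j, cc j * ev k y j = 0) : cc = 0 := by
  set P : ℝ[X] := ∑ j : Fin (2 * k + 1), C (cc j * ((2 * k).choose j : ℝ) *
    (-1) ^ (2 * k - (j : ℕ))) * X ^ (2 * k - (j : ℕ)) with hP
  have hP0 : P = 0 := by
    refine eq_zero_of_inf hS fun y hy => ?_
    rw [hP, eval_finsetSum, ← h y hy]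
    refine Finset.sum_congr rfl fun j _ => ?_
    rw [eval_mul, eval_C, eval_pow, eval_X, ev, neg_pow y]
    ring
  funext j
  have hc : P.coeff (2 * k - (j : ℕ)) = cc j * ((2 * k).choose j : ℝ) * (-1) ^ (2 * k - (j : ℕ)) := by
    rw [hP, finsetSum_coeff, Finset.sum_eq_single j]
    · rw [coeff_C_mul, coeff_X_pow, if_pos rfl, mul_one]
    · intro i _ hij
      rw [coeff_C_mul, coeff_X_pow, if_neg, mul_zero]
      intro h
      apply hij
      have h1 := i.2
      have h2 := j.2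
      exact Fin.ext (by omega)
    · intro h; exact absurd (Finset.mem_univ _) h
  rw [hP0, coeff_zero] at hc
  have h1 : ((2 * k).choose j : ℝ) ≠ 0 := by
    exact_mod_cast (Nat.choose_pos (Nat.lt_succ_iff.1 j.2)).ne'
  have h2 : (-1 : ℝ) ^ (2 * k - (j : ℕ)) ≠ 0 := pow_ne_zero _ (by norm_num)
  have := (mul_eq_zero.1 hc.symm).resolve_right h2
  exact (mul_eq_zero.1 this).resolve_right h1

/-- a linear functional vanishing on the powers vanishes -/
theorem lin_zero {k : ℕ} {S : Set ℝ} (hS : S.Infinite) (Φ : (Fin (2 * k + 1) → ℝ) → ℝ)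
    (hadd : ∀ c d, Φ (c + d) = Φ c + Φ d) (hsmul : ∀ (a : ℝ) c, Φ (a • c) = a * Φ c)
    (h : ∀ y ∈ S, Φ (ev k y) = 0) (c : Fin (2 * k + 1) → ℝ) : Φ c = 0 := by
  let L : (Fin (2 * k + 1) → ℝ) →ₗ[ℝ] ℝ :=
    { toFun := Φ, map_add' := hadd, map_smul' := fun a c => by rw [hsmul]; rfl }
  have hLv : ∀ v : Fin (2 * k + 1) → ℝ, L v = ∑ j, L (Pi.single j 1) * v j := by
    intro v
    conv_lhs => rw [← Finset.univ_sum_single v]
    rw [map_sum]
    refine Finset.sum_congr rfl fun j _ => ?_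
    have : (Pi.single j (v j) : Fin (2 * k + 1) → ℝ) = v j • Pi.single j (1 : ℝ) := by
      rw [← Pi.single_smul, smul_eq_mul, mul_one]
    rw [this, map_smul, smul_eq_mul, mul_comm]
  have hcc := span_ev (k := k) hS (cc := fun j => L (Pi.single j 1)) (fun y hy => by
    rw [← hLv]; exact h y hy)
  change L c = 0
  rw [hLv]
  exact Finset.sum_eq_zero fun j _ => by rw [congrFun hcc j]; simp

theorem polA_natDegree {k i : ℕ} (hi : i ≤ k) {p : ℝ[X]} (hp : p.natDegree ≤ 2 * k) :
    (polA k i p).natDegree ≤ k := by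
  rw [natDegree_le_iff_coeff_eq_zero]
  intro m hm
  have := lin_zero (k := k) Set.infinite_univ (fun c => (polA k i (pol c)).coeff m)
    (fun c d => by rw [pol_add, polA_add, coeff_add])
    (fun a c => by rw [pol_smul, polA_smul, coeff_smul, smul_eq_mul]) (fun y _ => ?_)
    (fun j : Fin (2 * k + 1) => p.coeff j)
  · rwa [pol_eq hp] at this
  · have e : polA k i (pol (ev k y)) = C (((2 * k).factorial : ℝ) * y ^ i) * (X - C y) ^ k := by
      refine Polynomial.funext fun t => ?_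
      rw [eval_polA, pol_ev, opA_pow hi]
      simp
      ring
    rw [e]
    apply coeff_eq_zero_of_natDegree_lt
    refine lt_of_le_of_lt ?_ hm
    refine (natDegree_C_mul_le _ _).trans ?_
    rw [natDegree_pow, natDegree_X_sub_C, mul_one]

end Pool.Agent.InvSub
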