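import Pool.Agent.InvSub.Quad
import Pool.Agent.InvSub.FlatA

/-!
# Spaces equivalent to polynomials: orders of vanishing
-/

set_option autoImplicit false

open Set Filter Topology

namespace Pool.Agent.InvSub

theorem adj_smooth {n : ℕ} {I : Set ℝ} (hI : IsOpen I) {f : Fin n → ℝ → ℝ} (hf : ∀ j, Sm I (f j))
    (i j : Fin n) : Sm I (fun y => (FundSys.W f y).adjugate i j) := by
  simp only [Matrix.adjugate_apply]
  refine FundSys.smooth_det fun r l => ?_
  by_cases hr : r = j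
  · subst hr
    have : (fun y => (FundSys.W f y).updateRow r (Pi.single i 1) r l) =
        fun _ => (Pi.single i 1 : Fin n → ℝ) l := by
      funext y
      rw [Matrix.updateRow_self]
    rw [this]
    exact contDiffOn_const
  · have : (fun y => (FundSys.W f y).updateRow j (Pi.single i 1) r l) =
        fun y => iteratedDeriv r (f l) y := by
      funext y
      rw [Matrix.updateRow_ne hr]
      rfl
    rw [this]
    exact Sm.iter (hf l) hI r

theorem det_smooth {n : ℕ} {I : Set ℝ} (hI : IsOpen I) {f : Fin n → ℝ → ℝ}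
    (hf : ∀ j, Sm I (f j)) : Sm I (fun y => (FundSys.W f y).det) :=
  FundSys.smooth_det fun i l => Sm.iter (hf l) hI i

theorem inv_smooth {n : ℕ} {I : Set ℝ} (hI : IsOpen I) {f : Fin n → ℝ → ℝ} (hf : ∀ j, Sm I (f j))
    (hdet : ∀ x ∈ I, (FundSys.W f x).det ≠ 0) (i j : Fin n) :
    Sm I (fun y => (FundSys.W f y)⁻¹ i j) := by
  have e : (fun y => (FundSys.W f y)⁻¹ i j) =
      fun y => ((FundSys.W f y).det)⁻¹ * (FundSys.W f y).adjugate i j := by
    funext y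
    rw [Matrix.inv_def, Matrix.smul_apply, Ring.inverse_eq_inv', smul_eq_mul]
  rw [e]
  unfold Sm
  exact ((det_smooth hI hf).inv hdet).mul (adj_smooth hI hf i j)

theorem fundsys_of_det {n : ℕ} {I : Set ℝ} (hI : IsOpen I) (hne : I.Nonempty)
    {f : Fin n → ℝ → ℝ} (hf : ∀ j, Sm I (f j)) (hdet : ∀ x ∈ I, (FundSys.W f x).det ≠ 0) :
    ∃ a : Fin n → ℝ → ℝ, FundSys I n a f := by
  refine ⟨fun i x => ∑ l, (-iteratedDeriv n (f l) x) * (FundSys.W f x)⁻¹ l i, ?_, hf, ?_, ?_⟩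
  · intro i
    refine ContDiffOn.sum fun l _ => ?_
    exact ContDiffOn.mul (Sm.iter (hf l) hI n).neg (inv_smooth hI hf hdet l i)
  · intro l x hx
    have e : Matrix.vecMul (Matrix.vecMul (fun l => -iteratedDeriv n (f l) x)
        (FundSys.W f x)⁻¹) (FundSys.W f x) = fun l => -iteratedDeriv n (f l) x := by
      rw [Matrix.vecMul_vecMul, Matrix.nonsing_inv_mul _ (isUnit_iff_ne_zero.2 (hdet x hx)),
        Matrix.vecMul_one]
    have e2 := congrFun e l
    have e3 : ∑ i : Fin n, (∑ l, (-iteratedDeriv n (f l) x) * (FundSys.W f x)⁻¹ l i) *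
        iteratedDeriv i (f l) x = -iteratedDeriv n (f l) x := e2
    rw [e3]
    ring
  · intro c hc
    obtain ⟨x, hx⟩ := hne
    have h0 : (FundSys.W f x).mulVec c = 0 := by
      funext i
      have e := iter_lin hI hf c i hx
      have e2 := iter_congr hI (f := fun x => ∑ j, c j * f j x) (g := fun _ => (0 : ℝ)) hc i hx
      rw [e2] at e
      have e3 : iteratedDeriv (i : ℕ) (fun _ : ℝ => (0 : ℝ)) x = 0 := by
        rw [iteratedDeriv_const]; split_ifs <;> rfl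
      rw [e3] at e
      have e4 : (FundSys.W f x).mulVec c i = ∑ j, c j * iteratedDeriv i (f j) x := by
        simp only [Matrix.mulVec, dotProduct, FundSys.W, Matrix.of_apply]
        exact Finset.sum_congr rfl fun j _ => mul_comm _ _
      rw [Pi.zero_apply, e4, ← e]
    by_contra hcne
    exact hdet x hx (Matrix.exists_mulVec_eq_zero_iff.1 ⟨c, hcne, h0⟩)

/-- the basis `ψ φ^j` -/
def fl (φ ψ : ℝ → ℝ) (n : ℕ) (j : Fin n) (x : ℝ) : ℝ := ψ x * φ x ^ (j : ℕ)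

theorem comb_fl (φ ψ : ℝ → ℝ) {n : ℕ} (c : Fin n → ℝ) (x : ℝ) :
    comb (fl φ ψ n) c x = ψ x * (pol c).eval (φ x) := by
  unfold comb fl
  rw [pol_eval, Finset.mul_sum]
  exact Finset.sum_congr rfl fun j _ => by ring

variable {I : Set ℝ} {φ ψ : ℝ → ℝ}

theorem fl_smooth (hφ : Sm I φ) (hψ : Sm I ψ) {n : ℕ} (j : Fin n) : Sm I (fl φ ψ n j) :=
  ContDiffOn.mul hψ (ContDiffOn.pow hφ _)

theorem phi_lower (hI : IsOpen I) (hφ : Sm I φ) (hφ' : ∀ x ∈ I, deriv φ x ≠ 0) {y : ℝ}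
    (hy : y ∈ I) : ∃ c > 0, ∀ᶠ x in 𝓝 y, c * |x - y| ≤ |φ x - φ y| := by
  have hd : HasDerivAt φ (deriv φ y) y := (hφ.at hI hy).differentiableAt (by simp) |>.hasDerivAt
  obtain ⟨c, hc, h⟩ := (HasDerivAtFilter.isTheta_sub hd (hφ' y hy)).2.exists_pos
  refine ⟨c⁻¹, inv_pos.2 hc, ?_⟩
  have hb := h.bound
  rw [Filter.prod_pure, Filter.eventually_map] at hb
  filter_upwards [hb] with x hx
  rw [Real.norm_eq_abs, Real.norm_eq_abs] at hx
  rw [inv_mul_le_iff₀ hc]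
  exact hx

theorem phi_upper (hI : IsOpen I) (hφ : Sm I φ) {y : ℝ}
    (hy : y ∈ I) : ∃ c > 0, ∀ᶠ x in 𝓝 y, |φ x - φ y| ≤ c * |x - y| := by
  have hd : HasDerivAt φ (deriv φ y) y := (hφ.at hI hy).differentiableAt (by simp) |>.hasDerivAt
  obtain ⟨c, hc, h⟩ := hd.isBigO_sub.exists_pos
  refine ⟨c, hc, ?_⟩
  have hb := h.bound
  filter_upwards [hb] with x hx
  rwa [Real.norm_eq_abs, Real.norm_eq_abs] at hx

open Polynomial in
theorem dvd_of_bound (hI : IsOpen I) (hφ : Sm I φ) (hφ' : ∀ x ∈ I, deriv φ x ≠ 0) {y : ℝ}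
    (hy : y ∈ I) {q : ℝ[X]} {m : ℕ} {K : ℝ}
    (hK : ∀ᶠ x in 𝓝 y, |q.eval (φ x)| ≤ K * |x - y| ^ m) : (X - C (φ y)) ^ m ∣ q := by
  obtain ⟨c, hc, hlow⟩ := phi_lower hI hφ hφ' hy
  have hφc : ContinuousAt φ y := (hφ.at hI hy).continuousAt
  have key : ∀ r ≤ m, (X - C (φ y)) ^ r ∣ q := by
    intro r
    induction r with
    | zero => intro _; rw [pow_zero]; exact one_dvd _
    | succ r ih =>
      intro hr
      obtain ⟨q1, hq1⟩ := ih (by omega)
      suffices h : q1.eval (φ y) = 0 by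
        obtain ⟨q2, hq2⟩ := dvd_iff_isRoot.2 h
        exact ⟨q2, by rw [hq1, hq2, pow_succ]; ring⟩
      by_contra hne
      have hpos : 0 < |q1.eval (φ y)| := abs_pos.2 hne
      have hcont : ContinuousAt (fun x => |q1.eval (φ x)|) y :=
        (q1.continuous.continuousAt.comp hφc).abs
      have hev : ∀ᶠ x in 𝓝[≠] y, |q1.eval (φ x)| ≤ |K| / c ^ r * |x - y| := by
        have h1 : ∀ᶠ x in 𝓝 y, |x - y| ≤ 1 := by
          have : Icc (y - 1) (y + 1) ∈ 𝓝 y := Icc_mem_nhds (by linarith) (by linarith)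
          filter_upwards [this] with x hx
          rw [abs_le]; constructor <;> linarith [hx.1, hx.2]
        filter_upwards [nhdsWithin_le_nhds hK, nhdsWithin_le_nhds hlow, nhdsWithin_le_nhds h1,
          self_mem_nhdsWithin] with x hx1 hx2 hx3 hx4
        have hxy : 0 < |x - y| := abs_pos.2 (sub_ne_zero.2 hx4)
        rw [hq1, eval_mul, eval_pow, eval_sub, eval_X, eval_C, abs_mul, abs_pow] at hx1
        have h2 : (c * |x - y|) ^ r ≤ |φ x - φ y| ^ r := pow_le_pow_left₀ (by positivity) hx2 r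
        have h3 : (c * |x - y|) ^ r * |q1.eval (φ x)| ≤ |K| * |x - y| ^ m :=
          (mul_le_mul_of_nonneg_right h2 (abs_nonneg _)).trans
            (hx1.trans (mul_le_mul_of_nonneg_right (le_abs_self K) (by positivity)))
        have h4 : |x - y| ^ m ≤ |x - y| ^ (r + 1) := pow_le_pow_of_le_one hxy.le hx3 hr
        have h5 : (c * |x - y|) ^ r * |q1.eval (φ x)| ≤ |K| * |x - y| ^ (r + 1) :=
          h3.trans (mul_le_mul_of_nonneg_left h4 (abs_nonneg _))
        rw [mul_pow, pow_succ] at h5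
        have h6 : |x - y| ^ r * (c ^ r * |q1.eval (φ x)|) ≤ |x - y| ^ r * (|K| * |x - y|) := by
          calc |x - y| ^ r * (c ^ r * |q1.eval (φ x)|) = c ^ r * |x - y| ^ r * |q1.eval (φ x)| := by
                ring
            _ ≤ |K| * (|x - y| ^ r * |x - y|) := h5
            _ = |x - y| ^ r * (|K| * |x - y|) := by ring
        have h7 := le_of_mul_le_mul_left h6 (by positivity)
        rw [div_mul_eq_mul_div, le_div_iff₀ (by positivity), mul_comm]
        exact h7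
      have hlim : Tendsto (fun x => |K| / c ^ r * |x - y|) (𝓝[≠] y) (𝓝 (|K| / c ^ r * |y - y|)) := by
        apply Tendsto.mono_left _ nhdsWithin_le_nhds
        exact (continuous_const.mul ((continuous_id.sub continuous_const).abs)).tendsto y
      rw [sub_self, abs_zero, mul_zero] at hlim
      have hlim2 : Tendsto (fun x => |q1.eval (φ x)|) (𝓝[≠] y) (𝓝 |q1.eval (φ y)|) :=
        hcont.tendsto.mono_left nhdsWithin_le_nhds
      have := le_of_tendsto_of_tendsto hlim2 hlim hev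
      linarith
  exact key m le_rfl

theorem psi_lower (hI : IsOpen I) (hψ : Sm I ψ) (hψ0 : ∀ x ∈ I, ψ x ≠ 0) {y : ℝ} (hy : y ∈ I) :
    ∃ c > 0, ∀ᶠ x in 𝓝 y, c ≤ |ψ x| := by
  have hpos : 0 < |ψ y| := abs_pos.2 (hψ0 y hy)
  refine ⟨|ψ y| / 2, by positivity, ?_⟩
  have hcont : ContinuousAt (fun x => |ψ x|) y := ((hψ.at hI hy).continuousAt).abs
  have := hcont.eventually (lt_mem_nhds (show |ψ y| / 2 < |ψ y| by linarith))
  filter_upwards [this] with x hx using hx.le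

open Polynomial in
theorem dvd_of_bound' (hI : IsOpen I) (hφ : Sm I φ) (hφ' : ∀ x ∈ I, deriv φ x ≠ 0)
    (hψ : Sm I ψ) (hψ0 : ∀ x ∈ I, ψ x ≠ 0) {y : ℝ}
    (hy : y ∈ I) {q : ℝ[X]} {m : ℕ} {K : ℝ}
    (hK : ∀ᶠ x in 𝓝 y, |ψ x * q.eval (φ x)| ≤ K * |x - y| ^ m) : (X - C (φ y)) ^ m ∣ q := by
  obtain ⟨c, hc, hlow⟩ := psi_lower hI hψ hψ0 hy
  refine dvd_of_bound hI hφ hφ' hy (K := K / c) ?_
  filter_upwards [hK, hlow] with x h1 h2
  rw [abs_mul] at h1
  have h3 : c * |q.eval (φ x)| ≤ K * |x - y| ^ m :=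
    (mul_le_mul_of_nonneg_right h2 (abs_nonneg _)).trans h1
  rw [div_mul_eq_mul_div, le_div_iff₀ hc, mul_comm]
  exact h3

open Polynomial in
theorem dvd_of_zero (hI : IsOpen I) (hφ : Sm I φ) (hφ' : ∀ x ∈ I, deriv φ x ≠ 0)
    (hψ : Sm I ψ) (hψ0 : ∀ x ∈ I, ψ x ≠ 0) {y : ℝ} (hy : y ∈ I) {n : ℕ} (c : Fin n → ℝ) {m : ℕ}
    (h0 : ∀ j < m, iteratedDeriv j (comb (fl φ ψ n) c) y = 0) : (X - C (φ y)) ^ m ∣ pol c := by
  obtain ⟨K, -, hK⟩ := bound_of_zero hI hy m (comb_smooth (fl_smooth hφ hψ) c) h0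
  refine dvd_of_bound' hI hφ hφ' hψ hψ0 hy (K := K) ?_
  filter_upwards [hK] with x hx
  rwa [comb_fl] at hx

open Polynomial in
theorem zero_of_dvd (hI : IsOpen I) (hφ : Sm I φ) (hψ : Sm I ψ) {y : ℝ} (hy : y ∈ I) {n : ℕ}
    (c : Fin n → ℝ) {m : ℕ} (hd : (X - C (φ y)) ^ m ∣ pol c) :
    ∀ j < m, iteratedDeriv j (comb (fl φ ψ n) c) y = 0 := by
  obtain ⟨c1, hc1, hup⟩ := phi_upper hI hφ hy
  obtain ⟨q, hq⟩ := hd
  have hcont : ContinuousAt (fun x => |ψ x * q.eval (φ x)|) y :=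
    (((hψ.at hI hy).continuousAt).mul (q.continuous.continuousAt.comp
      (hφ.at hI hy).continuousAt)).abs
  have hb := hcont.eventually (gt_mem_nhds (lt_add_one |ψ y * q.eval (φ y)|))
  set M := |ψ y * q.eval (φ y)| + 1 with hM
  have hM0 : 0 ≤ M := by positivity
  refine zero_of_bound hI hy m (comb_smooth (fl_smooth hφ hψ) c) (K := c1 ^ m * M) ?_
  filter_upwards [hup, hb] with x h1 h2
  rw [comb_fl, hq, eval_mul, eval_pow, eval_sub, eval_X, eval_C]
  have e : ψ x * ((φ x - φ y) ^ m * q.eval (φ x)) = (φ x - φ y) ^ m * (ψ x * q.eval (φ x)) := by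
    ring
  rw [e, abs_mul, abs_pow]
  calc |φ x - φ y| ^ m * |ψ x * q.eval (φ x)| ≤ (c1 * |x - y|) ^ m * M :=
        mul_le_mul (pow_le_pow_left₀ (abs_nonneg _) h1 m) h2.le (abs_nonneg _) (by positivity)
    _ = c1 ^ m * M * |x - y| ^ m := by rw [mul_pow]; ring

open Polynomial in
theorem fl_det (hI : IsOpen I) (hφ : Sm I φ) (hφ' : ∀ x ∈ I, deriv φ x ≠ 0)
    (hψ : Sm I ψ) (hψ0 : ∀ x ∈ I, ψ x ≠ 0) (n : ℕ) {y : ℝ} (hy : y ∈ I) :
    (FundSys.W (fl φ ψ (n + 1)) y).det ≠ 0 := by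
  intro h0
  obtain ⟨c, hc0, hc1⟩ := Matrix.exists_mulVec_eq_zero_iff.2 h0
  apply hc0
  have hz : ∀ j < n + 1, iteratedDeriv j (comb (fl φ ψ (n + 1)) c) y = 0 := by
    intro j hj
    have e := iter_lin hI (fun l => fl_smooth hφ hψ (n := n + 1) l) c j hy
    refine e.trans ?_
    have := congrFun hc1 ⟨j, hj⟩
    simp only [Matrix.mulVec, dotProduct, FundSys.W, Matrix.of_apply, Pi.zero_apply] at this
    rw [← this]
    exact Finset.sum_congr rfl fun l _ => mul_comm _ _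
  have hd := dvd_of_zero hI hφ hφ' hψ hψ0 hy c hz
  apply pol_eq_zero
  by_contra hne
  have := natDegree_le_of_dvd hd hne
  rw [natDegree_pow, natDegree_X_sub_C, mul_one] at this
  have := pol_natDegree c
  omega

theorem fl_fundsys (hI : IsOpen I) (hne : I.Nonempty) (hφ : Sm I φ)
    (hφ' : ∀ x ∈ I, deriv φ x ≠ 0) (hψ : Sm I ψ) (hψ0 : ∀ x ∈ I, ψ x ≠ 0) (n : ℕ) :
    ∃ a, FundSys I (n + 1) a (fl φ ψ (n + 1)) :=
  fundsys_of_det hI hne (fun j => fl_smooth hφ hψ j)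
    (fun _ hx => fl_det hI hφ hφ' hψ hψ0 n hx)

end Pool.Agent.InvSub
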