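import Pool.Agent.InvSub.FlatA

/-!
# Linear and bilinear maps of polynomials with prescribed zeros
-/

set_option autoImplicit false

open Polynomial

namespace Pool.Agent.InvSub

/-- `∑ x_a ev_a(t)` as a polynomial in `t` -/
noncomputable def Pev (k : ℕ) (x : Fin (2 * k + 1) → ℝ) : ℝ[X] :=
  ∑ a : Fin (2 * k + 1), C (x a * ((2 * k).choose a : ℝ) * (-1) ^ (2 * k - (a : ℕ))) *
    X ^ (2 * k - (a : ℕ))

theorem Pev_eval (k : ℕ) (x : Fin (2 * k + 1) → ℝ) (t : ℝ) :
    (Pev k x).eval t = ∑ a, x a * ev k t a := by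
  unfold Pev
  rw [eval_finsetSum]
  refine Finset.sum_congr rfl fun a _ => ?_
  rw [eval_mul, eval_C, eval_pow, eval_X, ev, neg_pow t]
  ring

theorem Pev_coeff (k : ℕ) (x : Fin (2 * k + 1) → ℝ) {i : ℕ} (hi : i ≤ 2 * k) :
    (Pev k x).coeff i = x ⟨2 * k - i, by omega⟩ * ((2 * k).choose (2 * k - i) : ℝ) * (-1) ^ i := by
  unfold Pev
  rw [finsetSum_coeff, Finset.sum_eq_single ⟨2 * k - i, by omega⟩]
  · rw [coeff_C_mul, coeff_X_pow, if_pos (by simp; omega), mul_one]
    simp only
    rw [show 2 * k - (2 * k - i) = i by omega]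
  · intro a _ ha
    rw [coeff_C_mul, coeff_X_pow, if_neg, mul_zero]
    intro h
    apply ha
    have h1 := a.2
    exact Fin.ext (by simp; omega)
  · intro h; exact absurd (Finset.mem_univ _) h

theorem Pev_natDegree (k : ℕ) (x : Fin (2 * k + 1) → ℝ) : (Pev k x).natDegree ≤ 2 * k := by
  unfold Pev
  refine natDegree_sum_le_of_forall_le _ _ fun a _ => ?_
  refine (natDegree_C_mul_le _ _).trans ?_
  rw [natDegree_X_pow]
  omega

theorem Pev_natDegree' (k : ℕ) {x : Fin (2 * k + 1) → ℝ} (h : ∀ a : Fin (2 * k + 1), (a : ℕ) < k →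
    x a = 0) : (Pev k x).natDegree ≤ k := by
  rw [natDegree_le_iff_coeff_eq_zero]
  intro m hm
  by_cases hm2 : m ≤ 2 * k
  · rw [Pev_coeff k x hm2, h _ (by simp; omega)]
    ring
  · exact coeff_eq_zero_of_natDegree_lt (by have := Pev_natDegree k x; omega)

theorem Pev_sum (k : ℕ) {x : Fin (2 * k + 1) → ℝ} (h : ∀ a : Fin (2 * k + 1), (a : ℕ) < k →
    x a = 0) (t : ℝ) : ∑ a, x a * ev k t a = ∑ i : Fin (k + 1), (Pev k x).coeff i * t ^ (i : ℕ) := by
  rw [← Pev_eval, eval_eq_sum_range' (n := k + 1) (by have := Pev_natDegree' k h; omega),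
    Finset.sum_range]

/-- linear maps -/
theorem lin_form {k : ℕ} {S : Set ℝ} (hS : S.Infinite)
    (l : Fin (2 * k + 1) → Fin (2 * k + 1) → ℝ)
    (h : ∀ t ∈ S, (X - C t) ^ k ∣ pol (fun m => ∑ j, l m j * ev k t j)) :
    ∃ lam : Fin (k + 1) → Fin (k + 1) → ℝ, ∀ t s,
      (pol (fun m => ∑ j, l m j * ev k t j)).eval s =
        ∑ i : Fin (k + 1), ∑ j : Fin (k + 1), lam i j * s ^ (i : ℕ) * t ^ (j : ℕ) * (s - t) ^ k := by
  -- the polynomial in two variables: outer variable `s`, inner variable `t`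
  set R : ℝ[X][X] := ∑ m : Fin (2 * k + 1), C (Pev k (l m)) * X ^ (m : ℕ) with hR
  have hRcoeff : ∀ i, 2 * k < i → R.coeff i = 0 := by
    intro i hi
    rw [hR, finsetSum_coeff]
    refine Finset.sum_eq_zero fun m _ => ?_
    have := m.2
    rw [coeff_C_mul, coeff_X_pow, if_neg (by omega), mul_zero]
  have hRdeg : R.natDegree ≤ 2 * k := natDegree_le_iff_coeff_eq_zero.2 hRcoeff
  have hRmap : ∀ t, R.map (evalRingHom t) = pol (fun m => ∑ j, l m j * ev k t j) := by
    intro t
    rw [hR, Polynomial.map_sum, pol]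
    refine Finset.sum_congr rfl fun m _ => ?_
    rw [Polynomial.map_mul, Polynomial.map_C, Polynomial.map_pow, Polynomial.map_X,
      coe_evalRingHom, Pev_eval]
  have hReval : ∀ s t, (R.eval (C s)).eval t =
      (pol (fun m => ∑ j, l m j * ev k t j)).eval s := by
    intro s t
    rw [hR, eval_finsetSum, eval_finsetSum, pol_eval]
    refine Finset.sum_congr rfl fun m _ => ?_
    rw [eval_mul, eval_C, eval_pow, eval_X, eval_mul, eval_pow, eval_C, Pev_eval]
  have hRs : ∀ s, (R.eval (C s)).natDegree ≤ 2 * k := by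
    intro s
    rw [hR, eval_finsetSum]
    refine natDegree_sum_le_of_forall_le _ _ fun m _ => ?_
    rw [eval_mul, eval_C, eval_pow, eval_X, ← C_pow, mul_comm]
    exact (natDegree_C_mul_le _ _).trans (Pev_natDegree k _)
  set D : ℝ[X][X] := (X - C X) ^ k with hD
  have hDm : D.Monic := (monic_X_sub_C X).pow k
  have hDmap : ∀ t, D.map (evalRingHom t) = (X - C t) ^ k := by
    intro t
    rw [hD, Polynomial.map_pow, Polynomial.map_sub, Polynomial.map_X, Polynomial.map_C,
      coe_evalRingHom, eval_X]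
  have hdvd : D ∣ R := by
    rw [← modByMonic_eq_zero_iff_dvd hDm]
    ext1 i
    rw [coeff_zero]
    refine eq_zero_of_inf hS fun t ht => ?_
    have e := map_modByMonic (evalRingHom t) hDm (p := R)
    rw [hRmap, hDmap, (modByMonic_eq_zero_iff_dvd ((monic_X_sub_C t).pow k)).2 (h t ht)] at e
    have e2 := congrArg (fun p => p.coeff i) e
    simp only [coeff_map, coe_evalRingHom, coeff_zero] at e2
    exact e2
  obtain ⟨Q, hQ⟩ := hdvd
  have hQdeg : Q.natDegree ≤ k := by
    rcases eq_or_ne Q 0 with rfl | hQ0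
    · simp
    · have e := hDm.natDegree_mul' hQ0
      rw [← hQ, hD, (monic_X_sub_C X).natDegree_pow, natDegree_X_sub_C, mul_one] at e
      omega
  have hQs : ∀ s, (Q.eval (C s)).natDegree ≤ k := by
    intro s
    have e : R.eval (C s) = (C s - X) ^ k * Q.eval (C s) := by
      rw [hQ, hD, eval_mul, eval_pow, eval_sub, eval_X, eval_C]
    have hne : (C s - X : ℝ[X]) ≠ 0 := by
      intro h0
      have := congrArg (fun p => p.coeff 1) h0
      simp at this
    rcases eq_or_ne (Q.eval (C s)) 0 with h0 | h0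
    · rw [h0]; simp
    · have e2 := natDegree_mul (pow_ne_zero k hne) h0
      rw [← e, natDegree_pow, natDegree_sub, natDegree_X_sub_C, mul_one] at e2
      have := hRs s
      omega
  have hQc : ∀ i m, k < m → (Q.coeff i).coeff m = 0 := by
    intro i m hm
    by_cases hi : i < k + 1
    · set P : ℝ[X] := ∑ i ∈ Finset.range (k + 1), C ((Q.coeff i).coeff m) * X ^ i with hP
      have hP0 : P = 0 := by
        refine eq_zero_of_inf Set.infinite_univ fun s _ => ?_
        have e := coeff_eq_zero_of_natDegree_lt (lt_of_le_of_lt (hQs s) hm)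
        rw [eval_eq_sum_range' (n := k + 1) (by omega), finsetSum_coeff] at e
        rw [hP, eval_finsetSum, ← e]
        refine Finset.sum_congr rfl fun i _ => ?_
        rw [eval_mul, eval_C, eval_pow, eval_X, ← C_pow, coeff_mul_C]
      have e := congrArg (fun p => p.coeff i) hP0
      simp only [hP, finsetSum_coeff, coeff_C_mul, coeff_X_pow, coeff_zero] at e
      rw [Finset.sum_eq_single i] at e
      · simpa using e
      · intro j _ hj; rw [if_neg (fun h => hj h.symm), mul_zero]
      · intro h; exact absurd (Finset.mem_range.2 hi) h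
    · rw [coeff_eq_zero_of_natDegree_lt (show Q.natDegree < i by omega), coeff_zero]
  refine ⟨fun i j => (Q.coeff i).coeff j, fun t s => ?_⟩
  have eQ : Q.eval (C s) = ∑ i ∈ Finset.range (k + 1), Q.coeff i * (C s) ^ i :=
    eval_eq_sum_range' (by omega) _
  rw [← hReval, hQ, hD, eval_mul, eval_pow, eval_sub, eval_X, eval_C, eQ, eval_mul, eval_pow,
    eval_sub, eval_X, eval_C, eval_finsetSum, Finset.mul_sum, Finset.sum_range]
  refine Finset.sum_congr rfl fun i _ => ?_
  have hci : (Q.coeff i).natDegree ≤ k := natDegree_le_iff_coeff_eq_zero.2 fun m hm => hQc i m hm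
  rw [eval_mul, eval_pow, eval_C, eval_eq_sum_range' (n := k + 1) (by omega), Finset.sum_mul,
    Finset.mul_sum, Finset.sum_range]
  refine Finset.sum_congr rfl fun j _ => ?_
  ring

/-- bilinear maps -/
theorem quad_form {k : ℕ} {S : Set ℝ} (hS : S.Infinite)
    (τ : Fin (2 * k + 1) → Fin (2 * k + 1) → Fin (2 * k + 1) → ℝ)
    (hsymm : ∀ m a b, τ m a b = τ m b a)
    (h : ∀ t ∈ S, ∀ w ∈ S, t ≠ w → (X - C t) ^ k * (X - C w) ^ k ∣
      pol (fun m => ∑ a, ∑ b, τ m a b * ev k t a * ev k w b)) :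
    ∃ mu : Fin (k + 1) → Fin (k + 1) → ℝ, (∀ i j, mu i j = mu j i) ∧
      ∀ t ∈ S, ∀ w ∈ S, t ≠ w → ∀ s,
      (pol (fun m => ∑ a, ∑ b, τ m a b * ev k t a * ev k w b)).eval s =
        ∑ i : Fin (k + 1), ∑ j : Fin (k + 1), mu i j * ((s - t) ^ k * t ^ (i : ℕ)) *
          ((s - w) ^ k * w ^ (j : ℕ)) := by
  set τ' : Fin (2 * k + 1) → Fin (2 * k + 1) → ℝ := fun a b => τ (Fin.last (2 * k)) a b with hτ'
  -- the quotient is constant
  have hc : ∀ t ∈ S, ∀ w ∈ S, t ≠ w → ∀ s,
      (pol (fun m => ∑ a, ∑ b, τ m a b * ev k t a * ev k w b)).eval s =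
        (∑ a, ∑ b, τ' a b * ev k t a * ev k w b) * ((s - t) ^ k * (s - w) ^ k) := by
    intro t ht w hw htw s
    obtain ⟨q, hq⟩ := h t ht w hw htw
    set r := pol (fun m => ∑ a, ∑ b, τ m a b * ev k t a * ev k w b) with hr
    have hmon : ((X - C t) ^ k * (X - C w) ^ k : ℝ[X]).Monic :=
      ((monic_X_sub_C t).pow k).mul ((monic_X_sub_C w).pow k)
    have hdeg : ((X - C t) ^ k * (X - C w) ^ k : ℝ[X]).natDegree = 2 * k := by
      rw [((monic_X_sub_C t).pow k).natDegree_mul ((monic_X_sub_C w).pow k),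
        (monic_X_sub_C t).natDegree_pow, (monic_X_sub_C w).natDegree_pow, natDegree_X_sub_C,
        natDegree_X_sub_C]
      ring
    have hrdeg : r.natDegree ≤ 2 * k := pol_natDegree _
    have hq0 : q.natDegree = 0 := by
      rcases eq_or_ne q 0 with rfl | hq0
      · simp
      · have e := hmon.natDegree_mul' hq0
        rw [← hq, hdeg] at e
        omega
    obtain ⟨c, hc⟩ := natDegree_eq_zero.1 hq0
    have hcc : c = ∑ a, ∑ b, τ' a b * ev k t a * ev k w b := by
      have e1 : r.coeff (2 * k) = ∑ a, ∑ b, τ' a b * ev k t a * ev k w b :=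
        pol_coeff (fun m => ∑ a, ∑ b, τ m a b * ev k t a * ev k w b) (Fin.last (2 * k))
      rw [← e1, hq, ← hc, coeff_mul_C]
      have e2 := hmon.coeff_natDegree
      rw [hdeg] at e2
      rw [e2, one_mul]
    rw [hq, ← hc, eval_mul, eval_C, eval_mul, eval_pow, eval_pow, eval_sub, eval_sub, eval_X,
      eval_C, eval_C, hcc]
    ring
  -- the degree in each variable is at most `k`
  have hvan : ∀ a : Fin (2 * k + 1), (a : ℕ) < k → ∀ b, τ' a b = 0 := by
    intro a ha b
    have key : ∀ w ∈ S, ∑ b, τ' a b * ev k w b = 0 := by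
      intro w hw
      set s0 := w + 1 with hs0
      set U := Pev k (fun a => ∑ b, (∑ m : Fin (2 * k + 1), τ m a b * s0 ^ (m : ℕ)) * ev k w b)
        with hU
      set V := Pev k (fun a => ∑ b, τ' a b * ev k w b) with hV
      have hUV : U = (C s0 - X) ^ k * V := by
        have : U - (C s0 - X) ^ k * V = 0 := by
          refine eq_zero_of_inf (hS.sdiff (Set.finite_singleton w)) fun t ht => ?_
          have e := hc t ht.1 w hw ht.2 s0
          rw [eval_sub, eval_mul, eval_pow, eval_sub, eval_C, eval_X, hU, hV, Pev_eval, Pev_eval]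
          rw [pol_eval] at e
          have e3 : ∑ a, (∑ b, (∑ m : Fin (2 * k + 1), τ m a b * s0 ^ (m : ℕ)) * ev k w b) *
              ev k t a = ∑ m : Fin (2 * k + 1), (∑ a, ∑ b, τ m a b * ev k t a * ev k w b) *
                s0 ^ (m : ℕ) := by
            simp only [Finset.sum_mul]
            have : ∀ a : Fin (2 * k + 1), ∑ b : Fin (2 * k + 1), ∑ m : Fin (2 * k + 1),
                τ m a b * s0 ^ (m : ℕ) * ev k w b * ev k t a =
                ∑ m : Fin (2 * k + 1), ∑ b : Fin (2 * k + 1),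
                τ m a b * s0 ^ (m : ℕ) * ev k w b * ev k t a := fun a => Finset.sum_comm
            rw [Finset.sum_congr rfl fun a _ => this a, Finset.sum_comm]
            refine Finset.sum_congr rfl fun m _ => Finset.sum_congr rfl fun a _ =>
              Finset.sum_congr rfl fun b _ => by ring
          have e4 : ∑ a, (∑ b, τ' a b * ev k w b) * ev k t a =
              ∑ a, ∑ b, τ' a b * ev k t a * ev k w b := by
            refine Finset.sum_congr rfl fun a _ => ?_
            rw [Finset.sum_mul]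
            exact Finset.sum_congr rfl fun b _ => by ring
          rw [e3, e4, e, hs0]
          ring
        exact sub_eq_zero.1 this
      have hne : (C s0 - X : ℝ[X]) ≠ 0 := by
        intro h0
        have := congrArg (fun p => p.coeff 1) h0
        simp at this
      have hVdeg : V.natDegree ≤ k := by
        rcases eq_or_ne V 0 with h0 | h0
        · rw [h0]; simp
        · have e2 := natDegree_mul (pow_ne_zero k hne) h0
          rw [← hUV, natDegree_pow, natDegree_sub, natDegree_X_sub_C, mul_one] at e2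
          have := Pev_natDegree k
            (fun a => ∑ b, (∑ m : Fin (2 * k + 1), τ m a b * s0 ^ (m : ℕ)) * ev k w b)
          rw [← hU] at this
          omega
      have e5 : V.coeff (2 * k - a) = 0 := coeff_eq_zero_of_natDegree_lt (by omega)
      rw [hV, Pev_coeff k _ (by omega)] at e5
      have e6 : (⟨2 * k - (2 * k - (a : ℕ)), by omega⟩ : Fin (2 * k + 1)) = a :=
        Fin.ext (by simp; omega)
      rw [e6] at e5
      have h1 : ((2 * k).choose (2 * k - (2 * k - (a : ℕ))) : ℝ) ≠ 0 := by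
        exact_mod_cast (Nat.choose_pos (by omega)).ne'
      have h2 : (-1 : ℝ) ^ (2 * k - (a : ℕ)) ≠ 0 := pow_ne_zero _ (by norm_num)
      exact (mul_eq_zero.1 ((mul_eq_zero.1 e5).resolve_right h2)).resolve_right h1
    exact congrFun (span_ev hS key) b
  have hsymm' : ∀ a b, τ' a b = τ' b a := fun a b => hsymm _ a b
  have hvan' : ∀ b : Fin (2 * k + 1), (b : ℕ) < k → ∀ a, τ' a b = 0 := fun b hb a => by
    rw [hsymm' a b]; exact hvan b hb a
  refine ⟨fun i j => (Pev k (fun a => (Pev k (τ' a)).coeff j)).coeff i, ?_, ?_⟩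
  · intro i j
    have hi := i.2
    have hj := j.2
    beta_reduce
    rw [Pev_coeff k _ (show (i : ℕ) ≤ 2 * k by omega), Pev_coeff k _ (show (j : ℕ) ≤ 2 * k by omega),
      Pev_coeff k _ (show (j : ℕ) ≤ 2 * k by omega), Pev_coeff k _ (show (i : ℕ) ≤ 2 * k by omega),
      hsymm']
    ring
  · intro t ht w hw htw s
    rw [hc t ht w hw htw s]
    have e1 : ∑ a, ∑ b, τ' a b * ev k t a * ev k w b = ∑ j : Fin (k + 1), w ^ (j : ℕ) *
        ∑ a, (Pev k (τ' a)).coeff j * ev k t a := by
      have : ∀ a, ∑ b, τ' a b * ev k t a * ev k w b =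
          ∑ j : Fin (k + 1), w ^ (j : ℕ) * ((Pev k (τ' a)).coeff j * ev k t a) := by
        intro a
        have e := Pev_sum k (x := τ' a) (fun b hb => hvan' b hb a) w
        calc ∑ b, τ' a b * ev k t a * ev k w b = ev k t a * ∑ b, τ' a b * ev k w b := by
              rw [Finset.mul_sum]; exact Finset.sum_congr rfl fun b _ => by ring
          _ = _ := by
              rw [e, Finset.mul_sum]; exact Finset.sum_congr rfl fun b _ => by ring
      rw [Finset.sum_congr rfl fun a _ => this a, Finset.sum_comm]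
      refine Finset.sum_congr rfl fun j _ => ?_
      rw [Finset.mul_sum]
    have e2 : ∀ j : Fin (k + 1), ∑ a, (Pev k (τ' a)).coeff j * ev k t a =
        ∑ i : Fin (k + 1), (Pev k (fun a => (Pev k (τ' a)).coeff j)).coeff i * t ^ (i : ℕ) := by
      intro j
      refine Pev_sum k (x := fun a => (Pev k (τ' a)).coeff j) (fun a ha => ?_) t
      rw [Pev_coeff k _ (by omega), hvan a ha]
      ring
    rw [e1, Finset.sum_mul, Finset.sum_comm]
    refine Finset.sum_congr rfl fun j _ => ?_
    rw [e2, Finset.mul_sum, Finset.sum_mul]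
    refine Finset.sum_congr rfl fun i _ => ?_
    ring

end Pool.Agent.InvSub
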