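import Pool.Agent.InvSub.FlatB
import Pool.Agent.InvSub.FlatC

/-!
# Spaces equivalent to polynomials: the operators
-/

set_option autoImplicit false

open Set Filter Topology

namespace Pool.Agent.InvSub

variable {I : Set ℝ} {φ ψ : ℝ → ℝ}

theorem phi_inj (hc : I.OrdConnected) (hφ : Sm I φ)
    (hφ' : ∀ x ∈ I, deriv φ x ≠ 0) : InjOn φ I := by
  have key : ∀ a ∈ I, ∀ b ∈ I, a < b → φ a ≠ φ b := by
    intro a ha b hb hab h
    have hsub : Icc a b ⊆ I := hc.out ha hb
    obtain ⟨z, hz, hz'⟩ := exists_deriv_eq_zero hab (hφ.continuousOn.mono hsub) h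
    exact hφ' z (hsub (Ioo_subset_Icc_self hz)) hz'
  intro a ha b hb hab
  rcases lt_trichotomy a b with h | h | h
  · exact absurd hab (key a ha b hb h)
  · exact h
  · exact absurd hab.symm (key b hb a ha h)

theorem inf_open (hI : IsOpen I) (hne : I.Nonempty) : I.Infinite := by
  obtain ⟨x, hx⟩ := hne
  obtain ⟨ε, hε, h⟩ := Metric.isOpen_iff.1 hI x hx
  refine Set.Infinite.mono (fun y hy => ?_) (Ioo_infinite (show x < x + ε by linarith))
  apply h
  rw [Metric.mem_ball, Real.dist_eq, abs_lt]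
  constructor <;> linarith [hy.1, hy.2]

theorem image_inf (hI : IsOpen I) (hc : I.OrdConnected) (hne : I.Nonempty) (hφ : Sm I φ)
    (hφ' : ∀ x ∈ I, deriv φ x ≠ 0) : (φ '' I).Infinite :=
  (inf_open hI hne).image (phi_inj hc hφ hφ')

theorem bound_lin (hI : IsOpen I) {k : ℕ} {v : ℝ → ℝ} (hv : Sm I v) {y : ℝ} (hy : y ∈ I)
    (h0 : ∀ j < 2 * k, iteratedDeriv j v y = 0) {A : Fin (k + 1) → ℝ → ℝ}
    (hA : ∀ i, Sm I (A i)) : ∃ K : ℝ, ∀ᶠ x in 𝓝 y,
      |∑ i : Fin (k + 1), A i x * iteratedDeriv i v x| ≤ K * |x - y| ^ k := by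
  have : ∀ i : Fin (k + 1), ∃ C : ℝ, ∀ᶠ x in 𝓝 y,
      |A i x * iteratedDeriv i v x| ≤ C * |x - y| ^ k := by
    intro i
    obtain ⟨C, hC0, hC⟩ := bound_of_zero hI hy k (hv.iter hI i) (fun j hj => by
      have e : iteratedDeriv j (iteratedDeriv i v) y = iteratedDeriv (j + i) v y := by
        rw [iteratedDeriv_eq_iterate, iteratedDeriv_eq_iterate, iteratedDeriv_eq_iterate,
          Function.iterate_add_apply]
      rw [e]
      exact h0 (j + i) (by omega))
    have hcont : ContinuousAt (fun x => |A i x|) y := (((hA i).at hI hy).continuousAt).abs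
    have hb := hcont.eventually (gt_mem_nhds (lt_add_one |A i y|))
    refine ⟨(|A i y| + 1) * C, ?_⟩
    filter_upwards [hC, hb] with x h1 h2
    rw [abs_mul, mul_assoc]
    exact mul_le_mul h2.le h1 (abs_nonneg _) (by positivity)
  choose C hC using this
  refine ⟨∑ i, C i, ?_⟩
  filter_upwards [Filter.eventually_all.2 hC] with x hx
  refine (Finset.abs_sum_le_sum_abs _ _).trans ?_
  rw [Finset.sum_mul]
  exact Finset.sum_le_sum fun i _ => hx i

/-- the derivatives of linear combinations -/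
theorem iter_comb (hI : IsOpen I) {n : ℕ} {f : Fin n → ℝ → ℝ} (hf : ∀ j, Sm I (f j))
    (c : Fin n → ℝ) (i : ℕ) {x : ℝ} (hx : x ∈ I) :
    iteratedDeriv i (comb f c) x = ∑ j, c j * iteratedDeriv i (f j) x :=
  iter_lin hI hf c i hx

theorem comb_single {n : ℕ} (f : Fin n → ℝ → ℝ) (j : Fin n) : comb f (Pi.single j 1) = f j := by
  funext x
  unfold comb
  rw [Finset.sum_eq_single j]
  · rw [Pi.single_eq_same, one_mul]
  · intro i _ hij; rw [Pi.single_eq_of_ne hij, zero_mul]
  · intro h; exact absurd (Finset.mem_univ _) h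

open Polynomial in
/-- a linear operator of order `k` preserving the space -/
theorem lin_op (hI : IsOpen I) (hc : I.OrdConnected) (hne : I.Nonempty) (hφ : Sm I φ)
    (hφ' : ∀ x ∈ I, deriv φ x ≠ 0) (hψ : Sm I ψ) (hψ0 : ∀ x ∈ I, ψ x ≠ 0) {k : ℕ}
    {A : Fin (k + 1) → ℝ → ℝ} (hA : ∀ i, Sm I (A i))
    (hinv : ∀ c : Fin (2 * k + 1) → ℝ, ∃ d : Fin (2 * k + 1) → ℝ, ∀ x ∈ I,
      ∑ i : Fin (k + 1), A i x * iteratedDeriv i (comb (fl φ ψ (2 * k + 1)) c) x =
        comb (fl φ ψ (2 * k + 1)) d x) :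
    ∃ lam : Fin (k + 1) → Fin (k + 1) → ℝ, ∀ c : Fin (2 * k + 1) → ℝ, ∀ x ∈ I,
      ∑ i : Fin (k + 1), A i x * iteratedDeriv i (comb (fl φ ψ (2 * k + 1)) c) x =
        ψ x * ∑ i : Fin (k + 1), ∑ j : Fin (k + 1), lam i j * φ x ^ (i : ℕ) *
          opA k j (pol c) (φ x) := by
  set f := fl φ ψ (2 * k + 1) with hf
  have hfs : ∀ j, Sm I (f j) := fun j => fl_smooth hφ hψ j
  set S := φ '' I with hS
  have hSinf : S.Infinite := image_inf hI hc hne hφ hφ'
  choose d hd using fun j : Fin (2 * k + 1) => hinv (Pi.single j 1)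
  have hL : ∀ c : Fin (2 * k + 1) → ℝ, ∀ x ∈ I,
      ∑ i : Fin (k + 1), A i x * iteratedDeriv i (comb f c) x =
        ψ x * (pol (fun m => ∑ j, d j m * c j)).eval (φ x) := by
    intro c x hx
    have e1 : ∑ i : Fin (k + 1), A i x * iteratedDeriv i (comb f c) x =
        ∑ j, c j * ∑ i : Fin (k + 1), A i x * iteratedDeriv i (f j) x := by
      have : ∀ i : Fin (k + 1), A i x * iteratedDeriv i (comb f c) x =
          ∑ j, c j * (A i x * iteratedDeriv i (f j) x) := by
        intro i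
        rw [iter_comb hI hfs c i hx, Finset.mul_sum]
        exact Finset.sum_congr rfl fun j _ => by ring
      rw [Finset.sum_congr rfl fun i _ => this i, Finset.sum_comm]
      exact Finset.sum_congr rfl fun j _ => by rw [Finset.mul_sum]
    rw [e1]
    have e2 : ∀ j, ∑ i : Fin (k + 1), A i x * iteratedDeriv i (f j) x =
        ψ x * (pol (d j)).eval (φ x) := by
      intro j
      have := hd j x hx
      rw [comb_single] at this
      rw [this, comb_fl]
    rw [Finset.sum_congr rfl fun j _ => by rw [e2 j]]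
    simp only [pol_eval, Finset.mul_sum, Finset.sum_mul]
    rw [Finset.sum_comm]
    exact Finset.sum_congr rfl fun m _ => Finset.sum_congr rfl fun j _ => by ring
  obtain ⟨lam, hlam⟩ := lin_form hSinf (fun m j => d j m) (by
    rintro t ⟨y, hy, rfl⟩
    have hz := zero_of_dvd hI hφ hψ hy (ev k (φ y)) (m := 2 * k) (by rw [pol_ev])
    obtain ⟨K, hK⟩ := bound_lin hI (comb_smooth hfs (ev k (φ y))) hy hz hA
    refine dvd_of_bound' hI hφ hφ' hψ hψ0 hy (K := K) ?_
    filter_upwards [hK, hI.mem_nhds hy] with x h1 h2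
    rwa [hL _ x h2] at h1)
  refine ⟨fun i j => lam i j / ((2 * k).factorial : ℝ), fun c x hx => ?_⟩
  have hfac : ((2 * k).factorial : ℝ) ≠ 0 := by exact_mod_cast (2 * k).factorial_ne_zero
  set Φ : (Fin (2 * k + 1) → ℝ) → ℝ := fun c =>
    (pol (fun m => ∑ j, d j m * c j)).eval (φ x) - ∑ i : Fin (k + 1), ∑ j : Fin (k + 1),
      lam i j / ((2 * k).factorial : ℝ) * φ x ^ (i : ℕ) * opA k j (pol c) (φ x) with hΦ
  have hzero : Φ c = 0 := by
    refine lin_zero hSinf Φ ?_ ?_ ?_ c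
    · intro c1 c2
      simp only [hΦ, pol_eval, Pi.add_apply, pol_add, opA_add, mul_add, Finset.sum_add_distrib,
        add_mul]
      ring
    · intro a c
      simp only [hΦ, pol_eval, Pi.smul_apply, smul_eq_mul, pol_smul, opA_smul, mul_sub,
        Finset.mul_sum, Finset.sum_mul]
      congr 1
      · exact Finset.sum_congr rfl fun m _ => Finset.sum_congr rfl fun j _ => by ring
      · exact Finset.sum_congr rfl fun m _ => Finset.sum_congr rfl fun j _ => by ring
    · intro t _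
      simp only [hΦ]
      rw [hlam t (φ x), sub_eq_zero]
      refine Finset.sum_congr rfl fun i _ => Finset.sum_congr rfl fun j _ => ?_
      rw [pol_ev, opA_pow (Nat.lt_succ_iff.1 j.2)]
      field_simp
  rw [hL c x hx]
  simp only [hΦ] at hzero
  rw [sub_eq_zero.1 hzero]

open Polynomial in
theorem dvd_mul_of_ne {a b : ℝ} (hab : a ≠ b) {m : ℕ} {p : ℝ[X]} (h1 : (X - C a) ^ m ∣ p)
    (h2 : (X - C b) ^ m ∣ p) : (X - C a) ^ m * (X - C b) ^ m ∣ p :=
  (IsCoprime.pow (isCoprime_X_sub_C_of_isUnit_sub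
    (isUnit_iff_ne_zero.2 (sub_ne_zero.2 hab)))).mul_dvd h1 h2

open Polynomial in
/-- a bilinear operator of order `k` preserving the space -/
theorem quad_op (hI : IsOpen I) (hc : I.OrdConnected) (hne : I.Nonempty) (hφ : Sm I φ)
    (hφ' : ∀ x ∈ I, deriv φ x ≠ 0) (hψ : Sm I ψ) (hψ0 : ∀ x ∈ I, ψ x ≠ 0) {k : ℕ}
    {B : Fin (k + 1) → Fin (k + 1) → ℝ → ℝ} (hB : ∀ i j, Sm I (B i j))
    (hsymm : ∀ i j x, B i j x = B j i x)
    (hinv : ∀ c e : Fin (2 * k + 1) → ℝ, ∃ d : Fin (2 * k + 1) → ℝ, ∀ x ∈ I,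
      ∑ i : Fin (k + 1), ∑ j : Fin (k + 1), B i j x *
        iteratedDeriv i (comb (fl φ ψ (2 * k + 1)) c) x *
        iteratedDeriv j (comb (fl φ ψ (2 * k + 1)) e) x = comb (fl φ ψ (2 * k + 1)) d x) :
    ∃ mu : Fin (k + 1) → Fin (k + 1) → ℝ, (∀ i j, mu i j = mu j i) ∧
      ∀ c e : Fin (2 * k + 1) → ℝ, ∀ x ∈ I,
      ∑ i : Fin (k + 1), ∑ j : Fin (k + 1), B i j x *
        iteratedDeriv i (comb (fl φ ψ (2 * k + 1)) c) x *
        iteratedDeriv j (comb (fl φ ψ (2 * k + 1)) e) x =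
        ψ x * ∑ i : Fin (k + 1), ∑ j : Fin (k + 1), mu i j * opA k i (pol c) (φ x) *
          opA k j (pol e) (φ x) := by
  set f := fl φ ψ (2 * k + 1) with hf
  have hfs : ∀ j, Sm I (f j) := fun j => fl_smooth hφ hψ j
  set S := φ '' I with hS
  have hSinf : S.Infinite := image_inf hI hc hne hφ hφ'
  set T : (ℝ → ℝ) → (ℝ → ℝ) → ℝ → ℝ := fun u v x =>
    ∑ i : Fin (k + 1), ∑ j : Fin (k + 1), B i j x * iteratedDeriv i u x * iteratedDeriv j v x
    with hT
  have hTsymm : ∀ u v x, T u v x = T v u x := by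
    intro u v x
    simp only [hT]
    rw [Finset.sum_comm]
    exact Finset.sum_congr rfl fun i _ => Finset.sum_congr rfl fun j _ => by
      rw [hsymm j i]; ring
  have hTlin : ∀ (c : Fin (2 * k + 1) → ℝ) (v : ℝ → ℝ), ∀ x ∈ I,
      T (comb f c) v x = ∑ a, c a * T (f a) v x := by
    intro c v x hx
    simp only [hT, Finset.mul_sum]
    have : ∀ i j : Fin (k + 1), B i j x * iteratedDeriv i (comb f c) x * iteratedDeriv j v x =
        ∑ a, c a * (B i j x * iteratedDeriv i (f a) x * iteratedDeriv j v x) := by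
      intro i j
      rw [iter_comb hI hfs c i hx, Finset.mul_sum, Finset.sum_mul]
      exact Finset.sum_congr rfl fun a _ => by ring
    rw [Finset.sum_congr rfl fun i _ => Finset.sum_congr rfl fun j _ => this i j]
    rw [Finset.sum_congr rfl fun i _ => Finset.sum_comm, Finset.sum_comm]
  have hTlin' : ∀ (u : ℝ → ℝ) (c : Fin (2 * k + 1) → ℝ), ∀ x ∈ I,
      T u (comb f c) x = ∑ a, c a * T u (f a) x := by
    intro u c x hx
    rw [hTsymm, hTlin c u x hx]
    exact Finset.sum_congr rfl fun a _ => by rw [hTsymm]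
  obtain ⟨a0, hfund⟩ := fl_fundsys hI hne hφ hφ' hψ hψ0 (2 * k)
  choose d hd using fun a b : Fin (2 * k + 1) => hinv (Pi.single a 1) (Pi.single b 1)
  have hd' : ∀ a b, ∀ x ∈ I, T (f a) (f b) x = comb f (d a b) x := by
    intro a b x hx
    have := hd a b x hx
    rw [comb_single, comb_single] at this
    exact this
  have hdsymm : ∀ m a b, d a b m = d b a m := by
    intro m a b
    have : d a b - d b a = 0 := hfund.indep _ fun x hx => by
      have e1 := hd' a b x hx
      have e2 := hd' b a x hx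
      rw [hTsymm, e2] at e1
      unfold comb at e1
      simp only [Pi.sub_apply, sub_mul, Finset.sum_sub_distrib]
      rw [e1, sub_self]
    have := congrFun this m
    simp only [Pi.sub_apply, Pi.zero_apply] at this
    linarith
  have hL : ∀ c e : Fin (2 * k + 1) → ℝ, ∀ x ∈ I, T (comb f c) (comb f e) x =
      ψ x * (pol (fun m => ∑ a, ∑ b, d a b m * c a * e b)).eval (φ x) := by
    intro c e x hx
    rw [hTlin c _ x hx, pol_eval]
    have : ∀ a, c a * T (f a) (comb f e) x =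
        ∑ m : Fin (2 * k + 1), ∑ b, ψ x * (d a b m * c a * e b) * φ x ^ (m : ℕ) := by
      intro a
      rw [hTlin' _ e x hx, Finset.mul_sum]
      rw [Finset.sum_comm]
      refine Finset.sum_congr rfl fun b _ => ?_
      rw [hd' a b x hx, hf]
      simp only [comb, fl]
      rw [Finset.mul_sum, Finset.mul_sum]
      exact Finset.sum_congr rfl fun m _ => by ring
    rw [Finset.sum_congr rfl fun a _ => this a, Finset.sum_comm, Finset.mul_sum]
    refine Finset.sum_congr rfl fun m _ => ?_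
    rw [Finset.sum_mul, Finset.mul_sum]
    refine Finset.sum_congr rfl fun a _ => ?_
    rw [Finset.sum_mul, Finset.mul_sum]
    exact Finset.sum_congr rfl fun b _ => by ring
  have hbound : ∀ y ∈ I, ∀ v, Sm I v → ∃ K : ℝ, ∀ᶠ x in 𝓝 y,
      |T (comb f (ev k (φ y))) v x| ≤ K * |x - y| ^ k := by
    intro y hy v hv
    have hz := zero_of_dvd hI hφ hψ hy (ev k (φ y)) (m := 2 * k) (by rw [pol_ev])
    obtain ⟨K, hK⟩ := bound_lin hI (comb_smooth hfs (ev k (φ y))) hy hz
      (A := fun i x => ∑ j : Fin (k + 1), B i j x * iteratedDeriv j v x) (fun i =>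
        Sm.sum _ fun j _ => ContDiffOn.mul (hB i j) (hv.iter hI j))
    refine ⟨K, ?_⟩
    filter_upwards [hK] with x hx
    have e : T (comb f (ev k (φ y))) v x = ∑ i : Fin (k + 1),
        (∑ j : Fin (k + 1), B i j x * iteratedDeriv j v x) *
          iteratedDeriv i (comb f (ev k (φ y))) x := by
      simp only [hT, Finset.sum_mul]
      exact Finset.sum_congr rfl fun i _ => Finset.sum_congr rfl fun j _ => by ring
    rw [e]
    exact hx
  obtain ⟨mu, hmusymm, hmu⟩ := quad_form hSinf (fun m a b => d a b m) hdsymm (by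
    rintro t ⟨y, hy, rfl⟩ w ⟨z, hz, rfl⟩ htw
    refine dvd_mul_of_ne htw ?_ ?_
    · obtain ⟨K, hK⟩ := hbound y hy (comb f (ev k (φ z))) (comb_smooth hfs _)
      refine dvd_of_bound' hI hφ hφ' hψ hψ0 hy (K := K) ?_
      filter_upwards [hK, hI.mem_nhds hy] with x h1 h2
      rwa [hL _ _ x h2] at h1
    · obtain ⟨K, hK⟩ := hbound z hz (comb f (ev k (φ y))) (comb_smooth hfs _)
      refine dvd_of_bound' hI hφ hφ' hψ hψ0 hz (K := K) ?_
      filter_upwards [hK, hI.mem_nhds hz] with x h1 h2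
      rwa [hTsymm, hL _ _ x h2] at h1)
  have hfac : ((2 * k).factorial : ℝ) ≠ 0 := by exact_mod_cast (2 * k).factorial_ne_zero
  refine ⟨fun i j => mu i j / ((2 * k).factorial : ℝ) ^ 2, fun i j => by
    beta_reduce; rw [hmusymm], fun c e x hx => ?_⟩
  set Φ : (Fin (2 * k + 1) → ℝ) → (Fin (2 * k + 1) → ℝ) → ℝ := fun c e =>
    (pol (fun m => ∑ a, ∑ b, d a b m * c a * e b)).eval (φ x) -
      ∑ i : Fin (k + 1), ∑ j : Fin (k + 1), mu i j / ((2 * k).factorial : ℝ) ^ 2 *
        opA k i (pol c) (φ x) * opA k j (pol e) (φ x) with hΦ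
  have hadd1 : ∀ c1 c2 e, Φ (c1 + c2) e = Φ c1 e + Φ c2 e := by
    intro c1 c2 e
    simp only [hΦ, pol_eval, Pi.add_apply, pol_add, opA_add, mul_add, Finset.sum_add_distrib,
      add_mul]
    ring
  have hadd2 : ∀ c e1 e2, Φ c (e1 + e2) = Φ c e1 + Φ c e2 := by
    intro c1 c2 e
    simp only [hΦ, pol_eval, Pi.add_apply, pol_add, opA_add, mul_add, Finset.sum_add_distrib,
      add_mul]
    ring
  have hsm1 : ∀ (r : ℝ) c e, Φ (r • c) e = r * Φ c e := by
    intro r c e
    simp only [hΦ, pol_eval, Pi.smul_apply, smul_eq_mul, pol_smul, opA_smul, mul_sub,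
      Finset.mul_sum, Finset.sum_mul]
    congr 1
    · exact Finset.sum_congr rfl fun m _ => Finset.sum_congr rfl fun j _ =>
        Finset.sum_congr rfl fun b _ => by ring
    · exact Finset.sum_congr rfl fun m _ => Finset.sum_congr rfl fun j _ => by ring
  have hsm2 : ∀ (r : ℝ) c e, Φ c (r • e) = r * Φ c e := by
    intro r c e
    simp only [hΦ, pol_eval, Pi.smul_apply, smul_eq_mul, pol_smul, opA_smul, mul_sub,
      Finset.mul_sum, Finset.sum_mul]
    congr 1
    · exact Finset.sum_congr rfl fun m _ => Finset.sum_congr rfl fun j _ =>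
        Finset.sum_congr rfl fun b _ => by ring
    · exact Finset.sum_congr rfl fun m _ => Finset.sum_congr rfl fun j _ => by ring
  have hz0 : ∀ t ∈ S, ∀ w ∈ S, t ≠ w → Φ (ev k t) (ev k w) = 0 := by
    intro t ht w hw htw
    simp only [hΦ]
    rw [hmu t ht w hw htw (φ x), sub_eq_zero]
    refine Finset.sum_congr rfl fun i _ => Finset.sum_congr rfl fun j _ => ?_
    rw [pol_ev, pol_ev, opA_pow (Nat.lt_succ_iff.1 i.2), opA_pow (Nat.lt_succ_iff.1 j.2)]
    field_simp
  have hz1 : ∀ t ∈ S, ∀ e, Φ (ev k t) e = 0 := by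
    intro t ht e
    refine lin_zero (hSinf.sdiff (Set.finite_singleton t)) (Φ (ev k t)) (hadd2 _)
      (fun r c => hsm2 r _ c) ?_ e
    intro w hw
    exact hz0 t ht w hw.1 (fun h => hw.2 h.symm)
  have hz2 : Φ c e = 0 :=
    lin_zero hSinf (fun c => Φ c e) (fun c1 c2 => hadd1 c1 c2 e) (fun r c => hsm1 r c e)
      (fun t ht => hz1 t ht e) c
  change T (comb f c) (comb f e) x = _
  rw [hL c e x hx]
  simp only [hΦ] at hz2
  rw [sub_eq_zero.1 hz2]

end Pool.Agent.InvSub
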