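import Pool.Agent.InvSub.FlatD

/-!
# Spaces equivalent to polynomials: normal form, existence and uniqueness
-/

set_option autoImplicit false

open Set Filter Topology

namespace Pool.Agent.InvSub

variable {I : Set ℝ} {φ ψ : ℝ → ℝ}

/-- the normal form -/
noncomputable def nf (k : ℕ) (φ ψ : ℝ → ℝ) (H : Polynomial ℝ)
    (lam mu : Fin (k + 1) → Fin (k + 1) → ℝ) (p : Polynomial ℝ) (x : ℝ) : ℝ :=
  ψ x * (H.eval (φ x) + ∑ i : Fin (k + 1), ∑ j : Fin (k + 1), lam i j * φ x ^ (i : ℕ) *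
      opA k j p (φ x) +
    ∑ i : Fin (k + 1), ∑ j : Fin (k + 1), mu i j * opA k i p (φ x) * opA k j p (φ x))

/-- the value of the operator on `ψ·p(φ)` -/
noncomputable def app (k : ℕ) (F : ℝ → (Fin (k + 1) → ℝ) → ℝ) (φ ψ : ℝ → ℝ) (p : Polynomial ℝ)
    (x : ℝ) : ℝ :=
  F x (fun i => iteratedDeriv i (fun z => ψ z * p.eval (φ z)) x)

theorem app_eq (k : ℕ) (F : ℝ → (Fin (k + 1) → ℝ) → ℝ) (φ ψ : ℝ → ℝ) {n : ℕ} (c : Fin n → ℝ)
    (x : ℝ) : app k F φ ψ (pol c) x = F x (jet k (comb (fl φ ψ n) c) x) := by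
  unfold app jet
  rw [show comb (fl φ ψ n) c = fun z => ψ z * (pol c).eval (φ z) from funext (comb_fl φ ψ c)]

theorem poly_smooth (hφ : Sm I φ) (p : Polynomial ℝ) : Sm I (fun x => p.eval (φ x)) := by
  have h : ContDiff ℝ (⊤ : ℕ∞) (fun x : ℝ => p.eval x) := by
    have := Polynomial.contDiff_aeval (𝕜 := ℝ) p (⊤ : ℕ∞)
    simpa [Polynomial.coe_aeval_eq_eval] using this
  exact h.comp_contDiffOn hφ

theorem normal_form {k : ℕ} (hk : 1 ≤ k) (hI : IsOpen I) (hc : I.OrdConnected) (hne : I.Nonempty)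
    (hφ : Sm I φ) (hφ' : ∀ x ∈ I, deriv φ x ≠ 0) (hψ : Sm I ψ) (hψ0 : ∀ x ∈ I, ψ x ≠ 0)
    {F : ℝ → (Fin (k + 1) → ℝ) → ℝ}
    (hF : ContDiffOn ℝ (⊤ : ℕ∞) (fun p : ℝ × (Fin (k + 1) → ℝ) => F p.1 p.2) (I ×ˢ univ))
    (hinv : ∀ p : Polynomial ℝ, p.natDegree ≤ 2 * k → ∃ q : Polynomial ℝ, q.natDegree ≤ 2 * k ∧
      ∀ x ∈ I, app k F φ ψ p x = ψ x * q.eval (φ x)) :
    ∃ (H : Polynomial ℝ) (lam mu : Fin (k + 1) → Fin (k + 1) → ℝ), H.natDegree ≤ 2 * k ∧
      (∀ i j, mu i j = mu j i) ∧ ∀ p : Polynomial ℝ, p.natDegree ≤ 2 * k → ∀ x ∈ I,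
        app k F φ ψ p x = nf k φ ψ H lam mu p x := by
  set f := fl φ ψ (2 * k + 1) with hf
  have hfs : ∀ j, Sm I (f j) := fun j => fl_smooth hφ hψ j
  obtain ⟨a, hfund⟩ := fl_fundsys hI hne hφ hφ' hψ hψ0 (2 * k)
  -- `F[u_c]` as a combination
  have hval : ∀ c : Fin (2 * k + 1) → ℝ, ∃ d : Fin (2 * k + 1) → ℝ, ∀ x ∈ I,
      F x (jet k (comb f c) x) = comb f d x := by
    intro c
    obtain ⟨q, hq, hq2⟩ := hinv (pol c) (pol_natDegree c)
    refine ⟨fun j => q.coeff j, fun x hx => ?_⟩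
    have e := app_eq k F φ ψ c x
    rw [← hf] at e
    rw [← e, hq2 x hx, hf, comb_fl, pol_eq hq]
  have hsol : ∀ c : Fin (2 * k + 1) → ℝ,
      Sol I (2 * k + 1) a (fun x => F x (jet k (comb f c) x)) := by
    intro c x hx
    obtain ⟨d, hd⟩ := hval c
    rw [iter_congr hI hd (2 * k + 1) hx]
    have : ∀ j : Fin (2 * k + 1), a j x * iteratedDeriv j (fun x => F x (jet k (comb f c) x)) x =
        a j x * iteratedDeriv j (comb f d) x := fun j => by rw [iter_congr hI hd j hx]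
    rw [Finset.sum_congr rfl fun j _ => this j]
    exact hfund.sol hI d x hx
  obtain ⟨B, A, H0, hB, hA, hH0, hBs, hFq⟩ := quadratic hk hI hc hF hfund (show 2 * k + 1 ≤ 3 * k by
    omega) (fun j => (hfund.coeff j).continuousOn) hsol
  set T : (Fin (2 * k + 1) → ℝ) → (Fin (2 * k + 1) → ℝ) → ℝ → ℝ := fun c e x =>
    ∑ i : Fin (k + 1), ∑ j : Fin (k + 1), B i j x * iteratedDeriv i (comb f c) x *
      iteratedDeriv j (comb f e) x with hT
  set L : (Fin (2 * k + 1) → ℝ) → ℝ → ℝ := fun c x =>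
    ∑ i : Fin (k + 1), A i x * iteratedDeriv i (comb f c) x with hL
  have hFc : ∀ c, ∀ x ∈ I, F x (jet k (comb f c) x) = T c c x + L c x + H0 x := by
    intro c x hx
    exact hFq x hx _
  have hTadd : ∀ c1 c2 e, ∀ x ∈ I, T (c1 + c2) e x = T c1 e x + T c2 e x := by
    intro c1 c2 e x hx
    simp only [hT, ← Finset.sum_add_distrib]
    refine Finset.sum_congr rfl fun i _ => Finset.sum_congr rfl fun j _ => ?_
    rw [comb_add, iter_add' hI (comb_smooth hfs c1) (comb_smooth hfs c2) i hx]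
    ring
  have hTsymm : ∀ c e x, T c e x = T e c x := by
    intro c e x
    simp only [hT]
    rw [Finset.sum_comm]
    exact Finset.sum_congr rfl fun i _ => Finset.sum_congr rfl fun j _ => by
      rw [hBs j i]; ring
  have hTadd2 : ∀ c e1 e2, ∀ x ∈ I, T c (e1 + e2) x = T c e1 x + T c e2 x := by
    intro c e1 e2 x hx
    rw [hTsymm, hTadd e1 e2 c x hx, hTsymm e1, hTsymm e2]
  have hLadd : ∀ c1 c2, ∀ x ∈ I, L (c1 + c2) x = L c1 x + L c2 x := by
    intro c1 c2 x hx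
    simp only [hL, ← Finset.sum_add_distrib]
    refine Finset.sum_congr rfl fun i _ => ?_
    rw [comb_add, iter_add' hI (comb_smooth hfs c1) (comb_smooth hfs c2) i hx]
    ring
  have hL0 : ∀ x ∈ I, L 0 x = 0 := by
    intro x hx
    have := hLadd 0 0 x hx
    rw [add_zero] at this
    linarith
  have hT0 : ∀ e, ∀ x ∈ I, T 0 e x = 0 := by
    intro e x hx
    have := hTadd 0 0 e x hx
    rw [add_zero] at this
    linarith
  have hcomb : ∀ (c d : Fin (2 * k + 1) → ℝ) (r s : ℝ) (x : ℝ),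
      comb f (r • c + s • d) x = r * comb f c x + s * comb f d x := by
    intro c d r s x
    unfold comb
    rw [Finset.mul_sum, Finset.mul_sum, ← Finset.sum_add_distrib]
    exact Finset.sum_congr rfl fun j _ => by
      simp only [Pi.add_apply, Pi.smul_apply, smul_eq_mul]; ring
  obtain ⟨d0, hd0⟩ := hval 0
  have hH : ∀ x ∈ I, H0 x = comb f d0 x := by
    intro x hx
    rw [← hd0 x hx, hFc 0 x hx, hT0 0 x hx, hL0 x hx]
    ring
  have hLneg : ∀ c, ∀ x ∈ I, L (-c) x = -L c x := by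
    intro c x hx
    have := hLadd c (-c) x hx
    rw [add_neg_cancel, hL0 x hx] at this
    linarith
  have hTneg : ∀ c, ∀ x ∈ I, T (-c) (-c) x = T c c x := by
    intro c x hx
    have h1 := hTadd c (-c) (-c) x hx
    rw [add_neg_cancel, hT0 _ x hx] at h1
    have h2 := hTadd2 c c (-c) x hx
    rw [add_neg_cancel, hTsymm, hT0 _ x hx] at h2
    linarith
  have hLinv : ∀ c : Fin (2 * k + 1) → ℝ, ∃ d : Fin (2 * k + 1) → ℝ, ∀ x ∈ I,
      L c x = comb f d x := by
    intro c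
    obtain ⟨d1, hd1⟩ := hval c
    obtain ⟨d2, hd2⟩ := hval (-c)
    refine ⟨(1 / 2 : ℝ) • d1 + (-1 / 2 : ℝ) • d2, fun x hx => ?_⟩
    rw [hcomb, ← hd1 x hx, ← hd2 x hx, hFc c x hx, hFc (-c) x hx, hTneg c x hx, hLneg c x hx]
    ring
  have hQinv : ∀ c : Fin (2 * k + 1) → ℝ, ∃ d : Fin (2 * k + 1) → ℝ, ∀ x ∈ I,
      T c c x = comb f d x := by
    intro c
    obtain ⟨d1, hd1⟩ := hval c
    obtain ⟨d2, hd2⟩ := hLinv c
    refine ⟨(1 : ℝ) • ((1 : ℝ) • d1 + (-1 : ℝ) • d2) + (-1 : ℝ) • d0, fun x hx => ?_⟩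
    rw [hcomb, hcomb, ← hd1 x hx, ← hd2 x hx, ← hH x hx, hFc c x hx]
    ring
  have hTinv : ∀ c e : Fin (2 * k + 1) → ℝ, ∃ d : Fin (2 * k + 1) → ℝ, ∀ x ∈ I,
      T c e x = comb f d x := by
    intro c e
    obtain ⟨d1, hd1⟩ := hQinv (c + e)
    obtain ⟨d2, hd2⟩ := hQinv c
    obtain ⟨d3, hd3⟩ := hQinv e
    refine ⟨(1 / 2 : ℝ) • d1 + (-1 / 2 : ℝ) • ((1 : ℝ) • d2 + (1 : ℝ) • d3), fun x hx => ?_⟩
    rw [hcomb, hcomb, ← hd1 x hx, ← hd2 x hx, ← hd3 x hx, hTadd c e _ x hx, hTadd2 c c e x hx,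
      hTadd2 e c e x hx, hTsymm e c]
    ring
  obtain ⟨lam, hlam⟩ := lin_op hI hc hne hφ hφ' hψ hψ0 hA hLinv
  obtain ⟨mu, hmus, hmu⟩ := quad_op hI hc hne hφ hφ' hψ hψ0 hB hBs hTinv
  refine ⟨pol d0, lam, mu, pol_natDegree _, hmus, fun p hp x hx => ?_⟩
  rw [← pol_eq hp, app_eq, hFc _ x hx]
  have e1 := hlam (fun j => p.coeff j) x hx
  have e2 := hmu (fun j => p.coeff j) (fun j => p.coeff j) x hx
  have e3 := hH x hx
  rw [comb_fl] at e3
  simp only [hT, hL]
  rw [e1, e2, e3]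
  unfold nf
  ring

open Polynomial in
theorem nf_inv {k : ℕ} {H : ℝ[X]} {lam mu : Fin (k + 1) → Fin (k + 1) → ℝ}
    (hH : H.natDegree ≤ 2 * k) {p : ℝ[X]} (hp : p.natDegree ≤ 2 * k) :
    ∃ q : ℝ[X], q.natDegree ≤ 2 * k ∧ ∀ x, nf k φ ψ H lam mu p x = ψ x * q.eval (φ x) := by
  refine ⟨H + ∑ i : Fin (k + 1), ∑ j : Fin (k + 1), C (lam i j) * (X ^ (i : ℕ) * polA k j p) +
    ∑ i : Fin (k + 1), ∑ j : Fin (k + 1), C (mu i j) * (polA k i p * polA k j p), ?_, fun x => ?_⟩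
  · refine natDegree_add_le_of_degree_le (natDegree_add_le_of_degree_le hH ?_) ?_
    · refine natDegree_sum_le_of_forall_le _ _ fun i _ => natDegree_sum_le_of_forall_le _ _
        fun j _ => (natDegree_C_mul_le _ _).trans ?_
      refine natDegree_mul_le.trans ?_
      have h1 := i.2
      have h2 := polA_natDegree (Nat.lt_succ_iff.1 j.2) hp
      rw [natDegree_X_pow]
      omega
    · refine natDegree_sum_le_of_forall_le _ _ fun i _ => natDegree_sum_le_of_forall_le _ _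
        fun j _ => (natDegree_C_mul_le _ _).trans ?_
      refine natDegree_mul_le.trans ?_
      have h1 := polA_natDegree (Nat.lt_succ_iff.1 i.2) hp
      have h2 := polA_natDegree (Nat.lt_succ_iff.1 j.2) hp
      omega
  · unfold nf
    rw [eval_add, eval_add, eval_finsetSum, eval_finsetSum]
    congr 2
    · congr 1
      refine Finset.sum_congr rfl fun i _ => ?_
      rw [eval_finsetSum]
      refine Finset.sum_congr rfl fun j _ => ?_
      rw [eval_mul, eval_C, eval_mul, eval_pow, eval_X, eval_polA]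
      ring
    · refine Finset.sum_congr rfl fun i _ => ?_
      rw [eval_finsetSum]
      refine Finset.sum_congr rfl fun j _ => ?_
      rw [eval_mul, eval_C, eval_mul, eval_polA, eval_polA]
      ring

open Polynomial in
theorem opA_of_dvd {k i : ℕ} {p : ℝ[X]} {t : ℝ} (hd : (X - C t) ^ (k + 1) ∣ p) :
    opA k i p t = 0 := by
  unfold opA
  refine Finset.sum_eq_zero fun l _ => ?_
  have : (derivative^[k - l] p).eval t = 0 := by
    have h1 : (X - C t) ^ (k + 1 - (k - l)) ∣ derivative^[k - l] p :=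
      pow_sub_dvd_iterate_derivative_of_pow_dvd _ hd
    have h2 : (X - C t) ∣ derivative^[k - l] p :=
      (dvd_pow_self _ (by omega)).trans h1
    exact dvd_iff_isRoot.1 h2
  rw [this, mul_zero]

open Polynomial in
theorem opA_rep (hI : IsOpen I) (hφ : Sm I φ) (hφ' : ∀ x ∈ I, deriv φ x ≠ 0) (hψ : Sm I ψ)
    (hψ0 : ∀ x ∈ I, ψ x ≠ 0) (k j : ℕ) :
    ∃ α : Fin (k + 1) → ℝ → ℝ, (∀ l, Sm I (α l)) ∧ ∀ c : Fin (2 * k + 1) → ℝ, ∀ x ∈ I,
      opA k j (pol c) (φ x) = ∑ l, α l x * jet k (comb (fl φ ψ (2 * k + 1)) c) x l := by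
  set f := fl φ ψ (2 * k + 1) with hf
  have hfs : ∀ j, Sm I (f j) := fun j => fl_smooth hφ hψ j
  have hdet : ∀ x ∈ I, (FundSys.W f x).det ≠ 0 := fun x hx => fl_det hI hφ hφ' hψ hψ0 (2 * k) hx
  set row : Fin (2 * k + 1) → ℝ → ℝ := fun m x => opA k j (pol (Pi.single m (1 : ℝ))) (φ x)
    with hrow
  have hrows : ∀ m, Sm I (row m) := by
    intro m
    have e : row m = fun x => (polA k j (pol (Pi.single m (1 : ℝ)))).eval (φ x) := by
      funext x; rw [eval_polA]
    rw [e]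
    exact poly_smooth hφ _
  have hlin : ∀ (c : Fin (2 * k + 1) → ℝ) x, opA k j (pol c) (φ x) = ∑ m, row m x * c m := by
    intro c x
    let L : (Fin (2 * k + 1) → ℝ) →ₗ[ℝ] ℝ :=
      { toFun := fun c => opA k j (pol c) (φ x)
        map_add' := fun c d => by rw [pol_add, opA_add]
        map_smul' := fun a c => by rw [pol_smul, opA_smul]; rfl }
    have hLv : ∀ v : Fin (2 * k + 1) → ℝ, L v = ∑ j, L (Pi.single j 1) * v j := by
      intro v
      conv_lhs => rw [← Finset.univ_sum_single v]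
      rw [map_sum]
      refine Finset.sum_congr rfl fun j _ => ?_
      have : (Pi.single j (v j) : Fin (2 * k + 1) → ℝ) = v j • Pi.single j (1 : ℝ) := by
        rw [← Pi.single_smul, smul_eq_mul, mul_one]
      rw [this, map_smul, smul_eq_mul, mul_comm]
    exact hLv c
  set β : Fin (2 * k + 1) → ℝ → ℝ := fun l x => ∑ m, row m x * (FundSys.W f x)⁻¹ m l with hβ
  have hβs : ∀ l, Sm I (β l) := fun l => Sm.sum _ fun m _ =>
    ContDiffOn.mul (hrows m) (inv_smooth hI hfs hdet m l)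
  have hβ0 : ∀ l : Fin (2 * k + 1), k < (l : ℕ) → ∀ x ∈ I, β l x = 0 := by
    intro l hl x hx
    set c : Fin (2 * k + 1) → ℝ := fun m => (FundSys.W f x)⁻¹ m l with hcdef
    have e : β l x = opA k j (pol c) (φ x) := by rw [hlin]
    rw [e]
    refine opA_of_dvd (dvd_of_zero hI hφ hφ' hψ hψ0 hx c (m := k + 1) fun i hi => ?_)
    have e2 := iter_comb hI hfs c i hx
    have e3 : (FundSys.W f x * (FundSys.W f x)⁻¹) ⟨i, by omega⟩ l =
        (1 : Matrix (Fin (2 * k + 1)) (Fin (2 * k + 1)) ℝ) ⟨i, by omega⟩ l := by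
      rw [Matrix.mul_nonsing_inv _ (isUnit_iff_ne_zero.2 (hdet x hx))]
    rw [Matrix.mul_apply, Matrix.one_apply_ne (fun h => by
      have := congrArg Fin.val h; simp at this; omega)] at e3
    refine e2.trans (Eq.trans ?_ e3)
    exact Finset.sum_congr rfl fun m _ => mul_comm _ _
  refine ⟨fun l => β ⟨l, by omega⟩, fun l => hβs _, fun c x hx => ?_⟩
  have e1 : opA k j (pol c) (φ x) = ∑ l, β l x * iteratedDeriv l (comb f c) x := by
    rw [hlin]
    have e4 : ∀ m, c m = ∑ l : Fin (2 * k + 1), (FundSys.W f x)⁻¹ m l *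
        iteratedDeriv l (comb f c) x := by
      intro m
      have e5 : (((FundSys.W f x)⁻¹).mulVec ((FundSys.W f x).mulVec c)) m = c m := by
        rw [Matrix.mulVec_mulVec, Matrix.nonsing_inv_mul _ (isUnit_iff_ne_zero.2 (hdet x hx)),
          Matrix.one_mulVec]
      rw [← e5]
      unfold Matrix.mulVec dotProduct
      refine Finset.sum_congr rfl fun l _ => ?_
      congr 1
      rw [iter_comb hI hfs c l hx]
      exact Finset.sum_congr rfl fun j _ => mul_comm _ _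
    calc ∑ m, row m x * c m = ∑ m, ∑ l : Fin (2 * k + 1), row m x * (FundSys.W f x)⁻¹ m l *
          iteratedDeriv l (comb f c) x := by
            refine Finset.sum_congr rfl fun m _ => ?_
            conv_lhs => rw [e4 m]
            rw [Finset.mul_sum]
            exact Finset.sum_congr rfl fun l _ => by ring
      _ = ∑ l, β l x * iteratedDeriv l (comb f c) x := by
            rw [Finset.sum_comm]
            exact Finset.sum_congr rfl fun l _ => by rw [hβ, Finset.sum_mul]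
  rw [e1]
  have e6 : ∀ g : ℕ → ℝ, (∀ l, k < l → l < 2 * k + 1 → g l = 0) →
      ∑ l : Fin (2 * k + 1), g l = ∑ l : Fin (k + 1), g l := by
    intro g hg
    rw [← Finset.sum_range (n := 2 * k + 1), ← Finset.sum_range (n := k + 1)]
    symm
    refine Finset.sum_subset (Finset.range_subset_range.2 (by omega)) fun l hl hl2 => ?_
    rw [Finset.mem_range] at hl hl2
    exact hg l (by omega) hl
  have e7 := e6 (fun l => if hl : l < 2 * k + 1 then β ⟨l, hl⟩ x * iteratedDeriv l (comb f c) x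
    else 0) (fun l h1 h2 => by rw [dif_pos h2, hβ0 ⟨l, h2⟩ h1 x hx, zero_mul])
  have e8 : ∑ l : Fin (2 * k + 1), β l x * iteratedDeriv l (comb f c) x =
      ∑ l : Fin (2 * k + 1), (if hl : (l : ℕ) < 2 * k + 1 then β ⟨l, hl⟩ x *
        iteratedDeriv l (comb f c) x else 0) :=
    Finset.sum_congr rfl fun l _ => by rw [dif_pos l.2]
  rw [e8, e7]
  refine Finset.sum_congr rfl fun l _ => ?_
  have := l.2
  rw [dif_pos (by omega)]
  rfl

end Pool.Agent.InvSub
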