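import Pool.Agent.InvSub.FlatE

/-!
# Spaces equivalent to polynomials: existence and uniqueness
-/

set_option autoImplicit false

open Set Filter Topology

namespace Pool.Agent.InvSub

variable {I : Set ℝ} {φ ψ : ℝ → ℝ}

theorem fst_smooth {n : ℕ} {g : ℝ → ℝ} (hg : Sm I g) :
    ContDiffOn ℝ (⊤ : ℕ∞) (fun p : ℝ × (Fin n → ℝ) => g p.1) (I ×ˢ univ) :=
  ContDiffOn.comp (g := g) (f := Prod.fst) hg contDiffOn_fst (fun _ hp => hp.1)

/-- all data occur -/
theorem exists_op {k : ℕ} (hI : IsOpen I)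
    (hφ : Sm I φ) (hφ' : ∀ x ∈ I, deriv φ x ≠ 0) (hψ : Sm I ψ) (hψ0 : ∀ x ∈ I, ψ x ≠ 0)
    (H : Polynomial ℝ) (lam mu : Fin (k + 1) → Fin (k + 1) → ℝ) :
    ∃ F : ℝ → (Fin (k + 1) → ℝ) → ℝ,
      ContDiffOn ℝ (⊤ : ℕ∞) (fun p : ℝ × (Fin (k + 1) → ℝ) => F p.1 p.2) (I ×ˢ univ) ∧
      (∀ p : Polynomial ℝ, p.natDegree ≤ 2 * k → ∀ x ∈ I,
        app k F φ ψ p x = nf k φ ψ H lam mu p x) ∧
      (mu = 0 → ∃ (g : Fin (k + 1) → ℝ → ℝ) (h : ℝ → ℝ), ∀ x v,
        F x v = ∑ l, g l x * v l + h x) := by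
  choose α hα hαe using fun j => opA_rep hI hφ hφ' hψ hψ0 k j
  refine ⟨fun x v => ψ x * (H.eval (φ x) + ∑ i : Fin (k + 1), ∑ j : Fin (k + 1), lam i j *
      φ x ^ (i : ℕ) * (∑ l, α j l x * v l) +
    ∑ i : Fin (k + 1), ∑ j : Fin (k + 1), mu i j * (∑ l, α i l x * v l) * (∑ l, α j l x * v l)),
    ?_, ?_, ?_⟩
  · have hlin : ∀ j : ℕ, ContDiffOn ℝ (⊤ : ℕ∞)
        (fun p : ℝ × (Fin (k + 1) → ℝ) => ∑ l, α j l p.1 * p.2 l) (I ×ˢ univ) := by
      intro j
      refine ContDiffOn.sum fun l _ => (fst_smooth (hα j l)).mul ?_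
      exact (contDiff_apply ℝ ℝ l).comp_contDiffOn contDiffOn_snd
    refine (fst_smooth hψ).mul (((fst_smooth (poly_smooth hφ H)).add ?_).add ?_)
    · exact ContDiffOn.sum fun i _ => ContDiffOn.sum fun j _ =>
        (contDiffOn_const.mul ((fst_smooth hφ).pow _)).mul (hlin j)
    · exact ContDiffOn.sum fun i _ => ContDiffOn.sum fun j _ =>
        (contDiffOn_const.mul (hlin i)).mul (hlin j)
  · intro p hp x hx
    rw [← pol_eq hp, app_eq]
    unfold nf
    simp only [hαe _ _ x hx]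
  · rintro rfl
    refine ⟨fun l x => ψ x * ∑ i : Fin (k + 1), ∑ j : Fin (k + 1), lam i j * φ x ^ (i : ℕ) *
      α j l x, fun x => ψ x * H.eval (φ x), fun x v => ?_⟩
    simp only [Pi.zero_apply, zero_mul, Finset.sum_const_zero, add_zero, mul_add, Finset.mul_sum,
      Finset.sum_mul]
    rw [add_comm]
    congr 1
    calc _ = ∑ i : Fin (k + 1), ∑ l : Fin (k + 1), ∑ j : Fin (k + 1),
          ψ x * (lam i j * φ x ^ (i : ℕ) * (α j l x * v l)) :=
            Finset.sum_congr rfl fun i _ => Finset.sum_comm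
      _ = ∑ l : Fin (k + 1), ∑ i : Fin (k + 1), ∑ j : Fin (k + 1),
          ψ x * (lam i j * φ x ^ (i : ℕ) * (α j l x * v l)) := Finset.sum_comm
      _ = _ := Finset.sum_congr rfl fun l _ => Finset.sum_congr rfl fun i _ =>
            Finset.sum_congr rfl fun j _ => by ring

/-- the operator is determined by its values on the space -/
theorem op_unique {k : ℕ} (hI : IsOpen I) (hc : I.OrdConnected) (hne : I.Nonempty)
    (hφ : Sm I φ) (hφ' : ∀ x ∈ I, deriv φ x ≠ 0) (hψ : Sm I ψ) (hψ0 : ∀ x ∈ I, ψ x ≠ 0)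
    {F G : ℝ → (Fin (k + 1) → ℝ) → ℝ}
    (h : ∀ p : Polynomial ℝ, p.natDegree ≤ 2 * k → ∀ x ∈ I, app k F φ ψ p x = app k G φ ψ p x)
    {x : ℝ} (hx : x ∈ I) (v : Fin (k + 1) → ℝ) : F x v = G x v := by
  obtain ⟨a, hfund⟩ := fl_fundsys hI hne hφ hφ' hψ hψ0 (2 * k)
  obtain ⟨c, hcv⟩ := jet_surj (k := k) (by omega) hfund hI hc hx v
  have := h (pol c) (pol_natDegree c) x hx
  rwa [app_eq, app_eq, hcv] at this

open Polynomial in
/-- a polynomial in two variables which vanishes on a large set -/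
theorem two_zero {k : ℕ} {c : Fin (k + 1) → Fin (k + 1) → ℝ} {S : Set ℝ} (hS : S.Infinite)
    (T : ℝ → Set ℝ) (hT : ∀ s ∈ S, (T s).Infinite)
    (h : ∀ s ∈ S, ∀ t ∈ T s, ∑ i : Fin (k + 1), ∑ j : Fin (k + 1), c i j * s ^ (i : ℕ) *
      t ^ (j : ℕ) = 0) : c = 0 := by
  have h1 : ∀ s ∈ S, ∀ j, ∑ i : Fin (k + 1), c i j * s ^ (i : ℕ) = 0 := by
    intro s hs j
    have : pol (fun j => ∑ i : Fin (k + 1), c i j * s ^ (i : ℕ)) = 0 := by
      refine eq_zero_of_inf (hT s hs) fun t ht => ?_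
      rw [pol_eval, ← h s hs t ht, Finset.sum_comm]
      exact Finset.sum_congr rfl fun j _ => by rw [Finset.sum_mul]
    exact congrFun (pol_eq_zero this) j
  funext i j
  have : pol (fun i => c i j) = 0 := by
    refine eq_zero_of_inf hS fun s hs => ?_
    rw [pol_eval]
    exact h1 s hs j
  exact congrFun (pol_eq_zero this) i

open Polynomial in
theorem pow_natDegree (k : ℕ) (t : ℝ) : ((X - C t) ^ (2 * k) : ℝ[X]).natDegree ≤ 2 * k := by
  rw [natDegree_pow, natDegree_X_sub_C, mul_one]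

open Polynomial in
/-- the data are determined by the operator -/
theorem data_unique {k : ℕ} (hI : IsOpen I) (hc : I.OrdConnected) (hne : I.Nonempty)
    (hφ : Sm I φ) (hφ' : ∀ x ∈ I, deriv φ x ≠ 0) (hψ0 : ∀ x ∈ I, ψ x ≠ 0)
    {H H' : ℝ[X]} {lam mu lam' mu' : Fin (k + 1) → Fin (k + 1) → ℝ}
    (hmu : ∀ i j, mu i j = mu j i) (hmu' : ∀ i j, mu' i j = mu' j i)
    (h : ∀ p : ℝ[X], p.natDegree ≤ 2 * k → ∀ x ∈ I,
      nf k φ ψ H lam mu p x = nf k φ ψ H' lam' mu' p x) : H = H' ∧ lam = lam' ∧ mu = mu' := by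
  set S := φ '' I with hS
  have hSinf : S.Infinite := image_inf hI hc hne hφ hφ'
  have hfac : ((2 * k).factorial : ℝ) ≠ 0 := by exact_mod_cast (2 * k).factorial_ne_zero
  set lin : (Fin (k + 1) → Fin (k + 1) → ℝ) → ℝ[X] → ℝ → ℝ := fun lam p s =>
    ∑ i : Fin (k + 1), ∑ j : Fin (k + 1), lam i j * s ^ (i : ℕ) * opA k j p s with hlin
  set bil : (Fin (k + 1) → Fin (k + 1) → ℝ) → ℝ[X] → ℝ[X] → ℝ → ℝ := fun mu p q s =>
    ∑ i : Fin (k + 1), ∑ j : Fin (k + 1), mu i j * opA k i p s * opA k j q s with hbil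
  have h0 : ∀ p : ℝ[X], p.natDegree ≤ 2 * k → ∀ s ∈ S,
      H.eval s + lin lam p s + bil mu p p s = H'.eval s + lin lam' p s + bil mu' p p s := by
    rintro p hp s ⟨x, hx, rfl⟩
    have := h p hp x hx
    unfold nf at this
    exact mul_left_cancel₀ (hψ0 x hx) this
  have hlinsmul : ∀ lam (a : ℝ) p s, lin lam (a • p) s = a * lin lam p s := by
    intro lam a p s
    simp only [hlin, Finset.mul_sum]
    exact Finset.sum_congr rfl fun i _ => Finset.sum_congr rfl fun j _ => by rw [opA_smul]; ring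
  have hbilsmul : ∀ mu (a : ℝ) p s, bil mu (a • p) (a • p) s = a ^ 2 * bil mu p p s := by
    intro mu a p s
    simp only [hbil, Finset.mul_sum]
    exact Finset.sum_congr rfl fun i _ => Finset.sum_congr rfl fun j _ => by
      rw [opA_smul, opA_smul]; ring
  have hHe : ∀ s ∈ S, H.eval s = H'.eval s := by
    intro s hs
    have := h0 ((0 : ℝ) • 0) (by simp) s hs
    rw [hlinsmul, hlinsmul, hbilsmul, hbilsmul] at this
    linarith
  have hsub : ∀ p : ℝ[X], p.natDegree ≤ 2 * k → ∀ s ∈ S,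
      lin lam p s = lin lam' p s ∧ bil mu p p s = bil mu' p p s := by
    intro p hp s hs
    have e1 := h0 p hp s hs
    have e2 := h0 ((-1 : ℝ) • p) ((natDegree_smul_le _ _).trans hp) s hs
    rw [hlinsmul, hlinsmul, hbilsmul, hbilsmul] at e2
    have e3 := hHe s hs
    constructor <;> linarith
  have hlinpow : ∀ lam : Fin (k + 1) → Fin (k + 1) → ℝ, ∀ t s,
      lin lam ((X - C t) ^ (2 * k)) s = ((2 * k).factorial : ℝ) * (s - t) ^ k *
        ∑ i : Fin (k + 1), ∑ j : Fin (k + 1), lam i j * s ^ (i : ℕ) * t ^ (j : ℕ) := by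
    intro lam t s
    simp only [hlin, Finset.mul_sum]
    refine Finset.sum_congr rfl fun i _ => Finset.sum_congr rfl fun j _ => ?_
    rw [opA_pow (Nat.lt_succ_iff.1 j.2)]
    ring
  have hbilpow : ∀ mu : Fin (k + 1) → Fin (k + 1) → ℝ, ∀ t w s,
      bil mu ((X - C t) ^ (2 * k)) ((X - C w) ^ (2 * k)) s = ((2 * k).factorial : ℝ) ^ 2 *
        (s - t) ^ k * (s - w) ^ k *
        ∑ i : Fin (k + 1), ∑ j : Fin (k + 1), mu i j * t ^ (i : ℕ) * w ^ (j : ℕ) := by
    intro mu t w s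
    simp only [hbil, Finset.mul_sum]
    refine Finset.sum_congr rfl fun i _ => Finset.sum_congr rfl fun j _ => ?_
    rw [opA_pow (Nat.lt_succ_iff.1 j.2), opA_pow (Nat.lt_succ_iff.1 i.2)]
    ring
  have hbiladd : ∀ mu, (∀ i j, mu i j = mu j i) → ∀ p q s,
      bil mu (p + q) (p + q) s = bil mu p p s + 2 * bil mu p q s + bil mu q q s := by
    intro mu hmu p q s
    have e1 : bil mu q p s = bil mu p q s := by
      simp only [hbil]
      rw [Finset.sum_comm]
      exact Finset.sum_congr rfl fun i _ => Finset.sum_congr rfl fun j _ => by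
        rw [hmu j i]; ring
    have e2 : bil mu (p + q) (p + q) s =
        bil mu p p s + bil mu p q s + bil mu q p s + bil mu q q s := by
      simp only [hbil, opA_add, ← Finset.sum_add_distrib]
      exact Finset.sum_congr rfl fun i _ => Finset.sum_congr rfl fun j _ => by ring
    rw [e2, e1]
    ring
  refine ⟨?_, ?_, ?_⟩
  · have : H - H' = 0 := eq_zero_of_inf hSinf fun s hs => by rw [eval_sub, hHe s hs, sub_self]
    exact sub_eq_zero.1 this
  · have : (fun i j => lam i j - lam' i j) = 0 := by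
      refine two_zero hSinf (fun s => {t | t ≠ s}) (fun s _ => ?_) fun s hs t ht => ?_
      · exact (Set.finite_singleton s).infinite_compl
      · have e := (hsub _ (pow_natDegree k t) s hs).1
        rw [hlinpow, hlinpow] at e
        have e2 := mul_left_cancel₀ (mul_ne_zero hfac (pow_ne_zero k
          (sub_ne_zero.2 (Ne.symm ht)))) e
        simp only [sub_mul, Finset.sum_sub_distrib]
        rw [e2, sub_self]
    funext i j
    have e := congrFun (congrFun this i) j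
    simp only [Pi.zero_apply] at e
    linarith
  · have : (fun i j => mu i j - mu' i j) = 0 := by
      obtain ⟨s, hs⟩ := hSinf.nonempty
      refine two_zero (Set.finite_singleton s).infinite_compl (fun _ => {t | t ≠ s}) (fun t _ => ?_)
        fun t ht w hw => ?_
      · exact (Set.finite_singleton s).infinite_compl
      · have e1 := (hsub _ (pow_natDegree k t) s hs).2
        have e2 := (hsub _ (pow_natDegree k w) s hs).2
        have e3 := (hsub ((X - C t) ^ (2 * k) + (X - C w) ^ (2 * k))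
          (natDegree_add_le_of_degree_le (pow_natDegree k t) (pow_natDegree k w)) s hs).2
        rw [hbiladd mu hmu, hbiladd mu' hmu', e1, e2] at e3
        have e4 : bil mu ((X - C t) ^ (2 * k)) ((X - C w) ^ (2 * k)) s =
            bil mu' ((X - C t) ^ (2 * k)) ((X - C w) ^ (2 * k)) s := by linarith
        rw [hbilpow, hbilpow] at e4
        have ht' : t ≠ s := ht
        have e5 := mul_left_cancel₀ (mul_ne_zero (mul_ne_zero (pow_ne_zero 2 hfac)
          (pow_ne_zero k (sub_ne_zero.2 (Ne.symm ht')))) (pow_ne_zero k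
          (sub_ne_zero.2 (Ne.symm hw)))) e4
        simp only [sub_mul, Finset.sum_sub_distrib]
        rw [e5, sub_self]
    funext i j
    have e := congrFun (congrFun this i) j
    simp only [Pi.zero_apply] at e
    linarith

/-- an operator in normal form is linear exactly when `mu = 0` -/
theorem linear_iff {k : ℕ} (hI : IsOpen I) (hc : I.OrdConnected) (hne : I.Nonempty)
    (hφ : Sm I φ) (hφ' : ∀ x ∈ I, deriv φ x ≠ 0) (hψ : Sm I ψ) (hψ0 : ∀ x ∈ I, ψ x ≠ 0)
    {F : ℝ → (Fin (k + 1) → ℝ) → ℝ} {H : Polynomial ℝ}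
    {lam mu : Fin (k + 1) → Fin (k + 1) → ℝ} (hmu : ∀ i j, mu i j = mu j i)
    (hF : ∀ p : Polynomial ℝ, p.natDegree ≤ 2 * k → ∀ x ∈ I,
      app k F φ ψ p x = nf k φ ψ H lam mu p x) :
    (∃ (g : Fin (k + 1) → ℝ → ℝ) (h : ℝ → ℝ), ∀ x ∈ I, ∀ v,
      F x v = ∑ l, g l x * v l + h x) ↔ mu = 0 := by
  constructor
  · rintro ⟨g, h, hg⟩
    refine (data_unique (H := H) (H' := H) (lam := lam) (lam' := lam) (mu := mu) (mu' := 0)
      hI hc hne hφ hφ' hψ0 hmu (fun _ _ => rfl) (fun p hp x hx => ?_)).2.2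
    have hfs : ∀ j, Sm I (fl φ ψ (2 * k + 1) j) := fun j => fl_smooth hφ hψ j
    -- `F[u] + F[-u] = 2 F[0]`
    have e0 : ∀ r : ℝ, app k F φ ψ (r • p) x = r * ∑ l, g l x *
        jet k (comb (fl φ ψ (2 * k + 1)) (fun j : Fin (2 * k + 1) => p.coeff j)) x l + h x := by
      intro r
      rw [← pol_eq hp, ← pol_smul, app_eq, hg x hx, pol_eq hp]
      congr 1
      rw [Finset.mul_sum]
      refine Finset.sum_congr rfl fun l _ => ?_
      unfold jet
      rw [iter_comb hI hfs _ l hx, iter_comb hI hfs _ l hx, Finset.mul_sum, Finset.mul_sum,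
        Finset.mul_sum]
      exact Finset.sum_congr rfl fun j _ => by rw [Pi.smul_apply, smul_eq_mul]; ring
    have e1 := e0 1
    have e2 := e0 (-1)
    have e3 := e0 0
    rw [one_smul] at e1
    have hn : ∀ r : ℝ, nf k φ ψ H lam mu (r • p) x = ψ x * (H.eval (φ x) +
        r * ∑ i : Fin (k + 1), ∑ j : Fin (k + 1), lam i j * φ x ^ (i : ℕ) * opA k j p (φ x) +
        r ^ 2 * ∑ i : Fin (k + 1), ∑ j : Fin (k + 1), mu i j * opA k i p (φ x) *
          opA k j p (φ x)) := by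
      intro r
      unfold nf
      simp only [opA_smul, Finset.mul_sum]
      congr 2
      · congr 1
        exact Finset.sum_congr rfl fun i _ => Finset.sum_congr rfl fun j _ => by ring
      · exact Finset.sum_congr rfl fun i _ => Finset.sum_congr rfl fun j _ => by ring
    have h1 := hn 1
    have h2 := hn (-1)
    have h3 := hn 0
    rw [one_smul] at h1
    have hd : ∀ r : ℝ, (r • p).natDegree ≤ 2 * k := fun r =>
      (Polynomial.natDegree_smul_le _ _).trans hp
    rw [hF p hp x hx] at e1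
    rw [hF _ (hd _) x hx] at e2 e3
    rw [h1] at e1
    rw [h2] at e2
    rw [h3] at e3
    have e4 : ψ x * ∑ i : Fin (k + 1), ∑ j : Fin (k + 1), mu i j * opA k i p (φ x) *
        opA k j p (φ x) = 0 := by linarith
    unfold nf
    simp only [Pi.zero_apply, zero_mul, Finset.sum_const_zero]
    rw [mul_add, e4]
    ring
  · rintro rfl
    obtain ⟨G, -, hG2, hG3⟩ := exists_op hI hφ hφ' hψ hψ0 H lam 0
    obtain ⟨g, h, hgh⟩ := hG3 rfl
    refine ⟨g, h, fun x hx v => ?_⟩
    rw [← hgh]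
    exact op_unique hI hc hne hφ hφ' hψ hψ0 (fun p hp x hx => by rw [hF p hp x hx, hG2 p hp x hx])
      hx v

end Pool.Agent.InvSub
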