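import Pool.Agent.InvSub.Basic

/-!
# Solution spaces of linear differential equations
-/

set_option autoImplicit false

open Set Filter Topology

namespace Pool.Agent.InvSub

/-- a fundamental system of solutions of a monic linear differential equation of order `n` with
smooth coefficients on `I` -/
structure FundSys (I : Set ℝ) (n : ℕ) (a f : Fin n → ℝ → ℝ) : Prop where
  coeff : ∀ j, ContDiffOn ℝ (⊤ : ℕ∞) (a j) I
  smooth : ∀ j, ContDiffOn ℝ (⊤ : ℕ∞) (f j) I
  eqn : ∀ l, ∀ x ∈ I, iteratedDeriv n (f l) x + ∑ j, a j x * iteratedDeriv j (f l) x = 0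
  indep : ∀ c : Fin n → ℝ, (∀ x ∈ I, ∑ j, c j * f j x = 0) → c = 0

/-- the equation for one function -/
def Sol (I : Set ℝ) (m : ℕ) (a : Fin m → ℝ → ℝ) (w : ℝ → ℝ) : Prop :=
  ∀ x ∈ I, iteratedDeriv m w x + ∑ j, a j x * iteratedDeriv j w x = 0

theorem small {I : Set ℝ} (hI : IsOpen I) {w : ℝ → ℝ} (hw : Sm I w) {m : ℕ} {s t : ℝ}
    (hst : s ≤ t) (hJ : Icc s t ⊆ I) {A : ℝ} (hA : 0 ≤ A)
    (hode : ∀ x ∈ Icc s t, |iteratedDeriv m w x| ≤ A * ∑ j : Fin m, |iteratedDeriv j w x|)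
    (hlen : t - s ≤ 1) (hsm : A * m * (t - s) < 1)
    (hz : ∀ j < m, ∃ z ∈ Icc s t, iteratedDeriv j w z = 0) :
    ∀ x ∈ Icc s t, ∀ j ≤ m, iteratedDeriv j w x = 0 := by
  obtain ⟨x0, hx0, hmax⟩ := (isCompact_Icc (a := s) (b := t)).exists_isMaxOn
    (nonempty_Icc.2 hst) (f := fun x => |iteratedDeriv m w x|)
    ((hw.iter hI m).continuousOn.mono hJ).abs
  set S := |iteratedDeriv m w x0| with hS
  have hS0 : 0 ≤ S := abs_nonneg _
  have hmax' : ∀ x ∈ Icc s t, |iteratedDeriv m w x| ≤ S := fun x hx => hmax hx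
  have hts : 0 ≤ t - s := by linarith
  have hb : ∀ d, d ≤ m → (∀ x ∈ Icc s t, |iteratedDeriv (m - d) w x| ≤ S) ∧
      (0 < d → ∀ x ∈ Icc s t, |iteratedDeriv (m - d) w x| ≤ S * (t - s)) := by
    intro d
    induction d with
    | zero => intro _; exact ⟨hmax', fun h => absurd h (lt_irrefl _)⟩
    | succ d ih =>
      intro hd
      obtain ⟨ih1, -⟩ := ih (by omega)
      have h2 : ∀ x ∈ Icc s t, |iteratedDeriv (m - (d + 1)) w x| ≤ S * (t - s) := by
        intro x hx
        obtain ⟨z, hz1, hz2⟩ := hz (m - (d + 1)) (by omega)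
        have hder : ∀ y ∈ Icc s t, HasDerivAt (iteratedDeriv (m - (d + 1)) w)
            (iteratedDeriv (m - d) w y) y := by
          intro y hy
          have := hw.hasDerivAt hI (m - (d + 1)) (hJ hy)
          rwa [show m - (d + 1) + 1 = m - d by omega] at this
        have := Convex.norm_image_sub_le_of_norm_deriv_le (𝕜 := ℝ)
          (f := iteratedDeriv (m - (d + 1)) w) (C := S) (s := Icc s t) (x := z) (y := x)
          (fun y hy => (hder y hy).differentiableAt)
          (fun y hy => by rw [(hder y hy).deriv]; exact ih1 y hy) (convex_Icc s t) hz1 hx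
        rw [hz2, sub_zero] at this
        refine this.trans (mul_le_mul_of_nonneg_left ?_ hS0)
        rw [Real.norm_eq_abs, abs_le]
        constructor <;> linarith [hx.1, hx.2, hz1.1, hz1.2]
      refine ⟨fun x hx => (h2 x hx).trans ?_, fun _ => h2⟩
      nlinarith
  have hlow : ∀ j < m, ∀ x ∈ Icc s t, |iteratedDeriv j w x| ≤ S * (t - s) := by
    intro j hj x hx
    have := (hb (m - j) (by omega)).2 (by omega) x hx
    rwa [show m - (m - j) = j by omega] at this
  have hS1 : S ≤ A * m * (t - s) * S := by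
    calc S ≤ A * ∑ j : Fin m, |iteratedDeriv j w x0| := hode x0 hx0
      _ ≤ A * ∑ _j : Fin m, S * (t - s) :=
          mul_le_mul_of_nonneg_left (Finset.sum_le_sum fun j _ => hlow j j.2 x0 hx0) hA
      _ = A * m * (t - s) * S := by
          rw [Finset.sum_const, Finset.card_univ, Fintype.card_fin, nsmul_eq_mul]; ring
  have hS2 : S = 0 := by nlinarith
  intro x hx j hj
  have := (hb (m - j) (by omega)).1 x hx
  rw [show m - (m - j) = j by omega, hS2] at this
  exact abs_eq_zero.1 (le_antisymm this (abs_nonneg _))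

theorem loc {I : Set ℝ} (hI : IsOpen I) {m : ℕ} {a : Fin m → ℝ → ℝ}
    (ha : ∀ j, ContinuousOn (a j) I) {x0 : ℝ} (hx0 : x0 ∈ I) :
    ∃ δ > 0, Icc (x0 - δ) (x0 + δ) ⊆ I ∧ ∀ w, Sm I w → Sol I m a w → ∀ s t, x0 - δ ≤ s → s ≤ t →
      t ≤ x0 + δ → (∀ j < m, ∃ z ∈ Icc s t, iteratedDeriv j w z = 0) →
      ∀ x ∈ Icc s t, ∀ j ≤ m, iteratedDeriv j w x = 0 := by
  obtain ⟨δ0, hδ0, hsub⟩ : ∃ δ > 0, Icc (x0 - δ) (x0 + δ) ⊆ I := by
    obtain ⟨ε, hε, h⟩ := Metric.isOpen_iff.1 hI x0 hx0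
    refine ⟨ε / 2, by positivity, fun x hx => h ?_⟩
    rw [Metric.mem_ball, Real.dist_eq, abs_lt]
    constructor <;> linarith [hx.1, hx.2]
  obtain ⟨A, hA0, hA⟩ : ∃ A : ℝ, 0 ≤ A ∧ ∀ j, ∀ x ∈ Icc (x0 - δ0) (x0 + δ0), |a j x| ≤ A := by
    have : ∀ j, ∃ A : ℝ, 0 ≤ A ∧ ∀ x ∈ Icc (x0 - δ0) (x0 + δ0), |a j x| ≤ A := by
      intro j
      obtain ⟨A, hA⟩ := (isCompact_Icc (a := x0 - δ0) (b := x0 + δ0)).exists_bound_of_continuousOn
        ((ha j).mono hsub)
      exact ⟨|A|, abs_nonneg _, fun x hx => (hA x hx).trans (le_abs_self _)⟩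
    choose A hA0 hA using this
    refine ⟨∑ j, A j, Finset.sum_nonneg fun j _ => hA0 j, fun j x hx => (hA j x hx).trans ?_⟩
    exact Finset.single_le_sum (fun j _ => hA0 j) (Finset.mem_univ j)
  set δ := min δ0 (min (1 / 2) (1 / (2 * (A * m + 1)))) with hδ
  have hAm : 0 < A * m + 1 := by positivity
  have hδpos : 0 < δ := by
    refine lt_min hδ0 (lt_min (by norm_num) (by positivity))
  have h1 : δ ≤ δ0 := min_le_left _ _
  have h2 : δ ≤ 1 / 2 := (min_le_right _ _).trans (min_le_left _ _)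
  have h3 : δ ≤ 1 / (2 * (A * m + 1)) := (min_le_right _ _).trans (min_le_right _ _)
  refine ⟨δ, hδpos, (Icc_subset_Icc (by linarith) (by linarith)).trans hsub, ?_⟩
  intro w hw hsol s t hs hst ht hz
  have hJ0 : Icc s t ⊆ Icc (x0 - δ0) (x0 + δ0) := Icc_subset_Icc (by linarith) (by linarith)
  refine small hI hw hst (hJ0.trans hsub) hA0 ?_ (by linarith) ?_ hz
  · intro x hx
    have e := hsol x (hsub (hJ0 hx))
    have e2 : iteratedDeriv m w x = -∑ j, a j x * iteratedDeriv j w x := by linarith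
    rw [e2, abs_neg, Finset.mul_sum]
    refine (Finset.abs_sum_le_sum_abs _ _).trans (Finset.sum_le_sum fun j _ => ?_)
    rw [abs_mul]
    exact mul_le_mul_of_nonneg_right (hA j x (hJ0 hx)) (abs_nonneg _)
  · have h4 : (t - s) * (A * m + 1) ≤ 1 := by
      have : t - s ≤ 2 * (1 / (2 * (A * m + 1))) := by linarith
      calc (t - s) * (A * m + 1) ≤ 2 * (1 / (2 * (A * m + 1))) * (A * m + 1) :=
            mul_le_mul_of_nonneg_right this hAm.le
        _ = 1 := by field_simp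
    rcases hst.eq_or_lt with e | e
    · rw [← e]; simp
    · nlinarith

theorem uniq {I : Set ℝ} (hI : IsOpen I) (hc : I.OrdConnected) {m : ℕ} {a : Fin m → ℝ → ℝ}
    (ha : ∀ j, ContinuousOn (a j) I) {w : ℝ → ℝ} (hw : Sm I w) (hs : Sol I m a w) {y : ℝ}
    (hy : y ∈ I) (h0 : ∀ j < m, iteratedDeriv j w y = 0) :
    ∀ x ∈ I, ∀ j ≤ m, iteratedDeriv j w x = 0 := by
  have hnb : ∀ z ∈ I, (∀ j < m, iteratedDeriv j w z = 0) →
      ∃ δ > 0, ∀ x ∈ Icc (z - δ) (z + δ), ∀ j ≤ m, iteratedDeriv j w x = 0 := by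
    intro z hz h
    obtain ⟨δ, hδ, -, H⟩ := loc hI ha hz
    exact ⟨δ, hδ, H w hw hs (z - δ) (z + δ) le_rfl (by linarith) le_rfl
      (fun j hj => ⟨z, ⟨by linarith, by linarith⟩, h j hj⟩)⟩
  set Z : Set ℝ := {x | ∀ j ≤ m, iteratedDeriv j w x = 0} with hZ
  have hopen : ∀ z ∈ I, (∀ j < m, iteratedDeriv j w z = 0) → z ∈ interior Z := by
    intro z hz h
    obtain ⟨δ, hδ, H⟩ := hnb z hz h
    rw [mem_interior_iff_mem_nhds]
    exact Filter.mem_of_superset (Icc_mem_nhds (by linarith) (by linarith)) (fun x hx => H x hx)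
  have hpre : IsPreconnected I := hc.isPreconnected
  have hsub : I ⊆ interior Z := by
    refine hpre.subset_of_closure_inter_subset isOpen_interior ⟨y, hy, hopen y hy h0⟩ ?_
    rintro z ⟨hz1, hz2⟩
    refine hopen z hz2 (fun j hj => ?_)
    have hcont : ContinuousAt (iteratedDeriv j w) z :=
      ((hw.iter hI j).continuousOn).continuousAt (hI.mem_nhds hz2)
    by_contra hne
    have hev : ∀ᶠ x in 𝓝 z, iteratedDeriv j w x ≠ 0 := hcont.eventually_ne hne
    obtain ⟨x, hx, hx'⟩ := (mem_closure_iff_frequently.1 hz1).and_eventually hev |>.exists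
    exact hx' (interior_subset hx j hj.le)
  intro x hx j hj
  exact interior_subset (hsub hx) j hj

namespace FundSys

variable {I : Set ℝ} {n : ℕ} {a f : Fin n → ℝ → ℝ}

theorem sol (h : FundSys I n a f) (hI : IsOpen I) (c : Fin n → ℝ) :
    Sol I n a (fun x => ∑ j, c j * f j x) := by
  intro x hx
  rw [iter_lin hI h.smooth c n hx]
  have e : ∀ j : Fin n, a j x * iteratedDeriv j (fun x => ∑ l, c l * f l x) x =
      ∑ l, c l * (a j x * iteratedDeriv j (f l) x) := by
    intro j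
    rw [iter_lin hI h.smooth c j hx, Finset.mul_sum]
    exact Finset.sum_congr rfl fun l _ => by ring
  rw [Finset.sum_congr rfl fun j _ => e j, Finset.sum_comm, ← Finset.sum_add_distrib]
  refine Finset.sum_eq_zero fun l _ => ?_
  rw [← Finset.mul_sum, ← mul_add, h.eqn l x hx, mul_zero]

/-- the Wronskian matrix -/
noncomputable def W (f : Fin n → ℝ → ℝ) (y : ℝ) : Matrix (Fin n) (Fin n) ℝ :=
  Matrix.of fun i j => iteratedDeriv i (f j) y

theorem det_ne (h : FundSys I n a f) (hI : IsOpen I) (hc : I.OrdConnected) {y : ℝ} (hy : y ∈ I) :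
    (W f y).det ≠ 0 := by
  intro h0
  obtain ⟨c, hc0, hc1⟩ := Matrix.exists_mulVec_eq_zero_iff.2 h0
  apply hc0
  have hz : ∀ j < n, iteratedDeriv j (fun x => ∑ l, c l * f l x) y = 0 := by
    intro j hj
    rw [iter_lin hI h.smooth c j hy]
    have := congrFun hc1 ⟨j, hj⟩
    simp only [Matrix.mulVec, dotProduct, W, Matrix.of_apply, Pi.zero_apply] at this
    rw [← this]
    exact Finset.sum_congr rfl fun l _ => mul_comm _ _
  have := uniq hI hc (fun j => (h.coeff j).continuousOn)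
    (Sm.sum _ fun l _ => Sm.const_mul (h.smooth l) (c l)) (h.sol hI c) hy hz
  exact h.indep c fun x hx => by
    have := this x hx 0 (Nat.zero_le _)
    rwa [iteratedDeriv_zero] at this

end FundSys

end Pool.Agent.InvSub
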