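import Pool.Agent.InvSub.Vanish
import Pool.Agent.InvSub.Diff3

/-!
# Operators of order `k` mapping a `(2k+1)`-dimensional space into a space of dimension at most `3k`
-/

set_option autoImplicit false

open Set Filter Topology

namespace Pool.Agent.InvSub

theorem Sol.lin {n m : ℕ} {I : Set ℝ} (hI : IsOpen I) {b : Fin m → ℝ → ℝ} {f : Fin n → ℝ → ℝ}
    (hf : ∀ j, Sm I (f j)) (hs : ∀ j, Sol I m b (f j)) (c : Fin n → ℝ) :
    Sol I m b (fun x => ∑ j, c j * f j x) := by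
  intro x hx
  rw [iter_lin hI hf c m hx]
  have e : ∀ j : Fin m, b j x * iteratedDeriv j (fun x => ∑ l, c l * f l x) x =
      ∑ l, c l * (b j x * iteratedDeriv j (f l) x) := by
    intro j
    rw [iter_lin hI hf c j hx, Finset.mul_sum]
    exact Finset.sum_congr rfl fun l _ => by ring
  rw [Finset.sum_congr rfl fun j _ => e j, Finset.sum_comm, ← Finset.sum_add_distrib]
  refine Finset.sum_eq_zero fun l _ => ?_
  rw [← Finset.mul_sum, ← mul_add, hs l x hx, mul_zero]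

/-- linear combinations -/
def comb {n : ℕ} (f : Fin n → ℝ → ℝ) (c : Fin n → ℝ) (x : ℝ) : ℝ := ∑ j, c j * f j x

theorem comb_smooth {n : ℕ} {I : Set ℝ} {f : Fin n → ℝ → ℝ} (hf : ∀ j, Sm I (f j))
    (c : Fin n → ℝ) : Sm I (comb f c) := Sm.sum _ fun j _ => Sm.const_mul (hf j) (c j)

theorem comb_add {n : ℕ} (f : Fin n → ℝ → ℝ) (c d : Fin n → ℝ) :
    comb f (c + d) = fun x => comb f c x + comb f d x := by
  funext x
  simp only [comb, Pi.add_apply, add_mul, Finset.sum_add_distrib]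

theorem F_smooth {k : ℕ} {I : Set ℝ} (hI : IsOpen I) {F : ℝ → (Fin (k + 1) → ℝ) → ℝ}
    (hF : ContDiffOn ℝ (⊤ : ℕ∞) (fun p : ℝ × (Fin (k + 1) → ℝ) => F p.1 p.2) (I ×ˢ univ))
    {u : ℝ → ℝ} (hu : Sm I u) : Sm I (fun x => F x (jet k u x)) := by
  have h1 : ContDiffOn ℝ (⊤ : ℕ∞) (fun x => (x, jet k u x)) I := by
    refine ContDiffOn.prodMk contDiffOn_id (contDiffOn_pi.2 fun i => ?_)
    exact hu.iter hI i
  exact hF.comp h1 (fun x hx => ⟨hx, trivial⟩)

/-- the third difference of the values vanishes to high order -/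
theorem third_order {k : ℕ} {I : Set ℝ} (hI : IsOpen I)
    {F : ℝ → (Fin (k + 1) → ℝ) → ℝ}
    (hF : ContDiffOn ℝ (⊤ : ℕ∞) (fun p : ℝ × (Fin (k + 1) → ℝ) => F p.1 p.2) (I ×ˢ univ))
    {f : Fin (2 * k + 1) → ℝ → ℝ} (hf : ∀ j, Sm I (f j)) (p h1 h2 h3 : Fin (2 * k + 1) → ℝ)
    {y : ℝ} (hy : y ∈ I) (h0 : ∀ j < 2 * k, iteratedDeriv j (comb f h1) y = 0) :
    ∀ j < k, iteratedDeriv j (fun x => D3 (fun c => F x (jet k (comb f c) x)) p h1 h2 h3) y = 0 := by
  have hs : ∀ c, Sm I (fun x => F x (jet k (comb f c) x)) := fun c =>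
    F_smooth hI hF (comb_smooth hf c)
  have hd : ∀ c, ∀ j < k, iteratedDeriv j (fun x => F x (jet k (comb f (c + h1)) x)) y =
      iteratedDeriv j (fun x => F x (jet k (comb f c) x)) y := by
    intro c j hj
    rw [comb_add]
    refine order_diff hI hF (comb_smooth hf c) (comb_smooth hf h1) hy h0 ?_ (hs c) j hj
    have := hs (c + h1)
    rwa [comb_add] at this
  intro j hj
  set φ : (Fin (2 * k + 1) → ℝ) → ℝ → ℝ := fun c x => F x (jet k (comb f c) x) with hφ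
  let P : Fin 8 → (Fin (2 * k + 1) → ℝ) := ![p + h1 + h2 + h3, p + h1 + h2, p + h1 + h3,
    p + h2 + h3, p + h1, p + h2, p + h3, p]
  let s : Fin 8 → ℝ := ![1, -1, -1, -1, 1, 1, 1, -1]
  have e : (fun x => D3 (fun c => F x (jet k (comb f c) x)) p h1 h2 h3) =
      fun x => ∑ i, s i * φ (P i) x := by
    funext x
    simp only [D3, Fin.sum_univ_eight, s, P, hφ]
    simp
    ring
  rw [e, iter_lin hI (fun i => hs (P i)) s j hy, Fin.sum_univ_eight]
  change (1 : ℝ) * iteratedDeriv j (φ (p + h1 + h2 + h3)) y +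
    -1 * iteratedDeriv j (φ (p + h1 + h2)) y + -1 * iteratedDeriv j (φ (p + h1 + h3)) y +
    -1 * iteratedDeriv j (φ (p + h2 + h3)) y + 1 * iteratedDeriv j (φ (p + h1)) y +
    1 * iteratedDeriv j (φ (p + h2)) y + 1 * iteratedDeriv j (φ (p + h3)) y +
    -1 * iteratedDeriv j (φ p) y = 0
  have e1 := hd (p + h2 + h3) j hj
  have e2 := hd (p + h2) j hj
  have e3 := hd (p + h3) j hj
  have e4 := hd p j hj
  rw [show p + h2 + h3 + h1 = p + h1 + h2 + h3 by abel] at e1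
  rw [show p + h2 + h1 = p + h1 + h2 by abel] at e2
  rw [show p + h3 + h1 = p + h1 + h3 by abel] at e3
  simp only [hφ]
  rw [e1, e2, e3, e4]
  ring

theorem third_smooth {k : ℕ} {I : Set ℝ} (hI : IsOpen I)
    {F : ℝ → (Fin (k + 1) → ℝ) → ℝ}
    (hF : ContDiffOn ℝ (⊤ : ℕ∞) (fun p : ℝ × (Fin (k + 1) → ℝ) => F p.1 p.2) (I ×ˢ univ))
    {f : Fin (2 * k + 1) → ℝ → ℝ} (hf : ∀ j, Sm I (f j)) {m : ℕ} {b : Fin m → ℝ → ℝ}
    (hinv : ∀ c, Sol I m b (fun x => F x (jet k (comb f c) x)))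
    (p h1 h2 h3 : Fin (2 * k + 1) → ℝ) :
    Sm I (fun x => D3 (fun c => F x (jet k (comb f c) x)) p h1 h2 h3) ∧
    Sol I m b (fun x => D3 (fun c => F x (jet k (comb f c) x)) p h1 h2 h3) := by
  have hs : ∀ c, Sm I (fun x => F x (jet k (comb f c) x)) := fun c =>
    F_smooth hI hF (comb_smooth hf c)
  set φ : (Fin (2 * k + 1) → ℝ) → ℝ → ℝ := fun c x => F x (jet k (comb f c) x) with hφ
  let P : Fin 8 → (Fin (2 * k + 1) → ℝ) := ![p + h1 + h2 + h3, p + h1 + h2, p + h1 + h3,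
    p + h2 + h3, p + h1, p + h2, p + h3, p]
  let s : Fin 8 → ℝ := ![1, -1, -1, -1, 1, 1, 1, -1]
  have e : (fun x => D3 (fun c => F x (jet k (comb f c) x)) p h1 h2 h3) =
      fun x => ∑ i, s i * φ (P i) x := by
    funext x
    simp only [D3, Fin.sum_univ_eight, s, P, hφ]
    simp
    ring
  rw [e]
  exact ⟨Sm.sum _ fun j _ => Sm.const_mul (hs _) (s j),
    Sol.lin hI (f := fun i => φ (P i)) (fun i => hs (P i)) (fun i => hinv (P i)) s⟩

/-- the elements with a zero of order `2k` in an open set span everything -/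
theorem span_E {N : ℕ} {I : Set ℝ} {a f : Fin (N + 1) → ℝ → ℝ} (h : FundSys I (N + 1) a f)
    (hI : IsOpen I) (hc : I.OrdConnected) {U : Set ℝ} (hU : IsOpen U) (hUI : U ⊆ I)
    (hne : U.Nonempty) : Submodule.span ℝ ((FundSys.E f) '' U) = ⊤ := by
  by_contra hlt
  obtain ⟨L, hL0, hL⟩ := Submodule.exists_le_ker_of_lt_top _ (lt_top_iff_ne_top.2 hlt)
  apply hL0
  have hLv : ∀ v : Fin (N + 1) → ℝ, L v = ∑ j, L (Pi.single j 1) * v j := by
    intro v
    conv_lhs => rw [← Finset.univ_sum_single v]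
    rw [map_sum]
    refine Finset.sum_congr rfl fun j _ => ?_
    have : (Pi.single j (v j) : Fin (N + 1) → ℝ) = v j • Pi.single j (1 : ℝ) := by
      rw [← Pi.single_smul, smul_eq_mul, mul_one]
    rw [this, map_smul, smul_eq_mul, mul_comm]
  have hcc := h.E_span hI hc hU hUI hne (fun j => L (Pi.single j 1)) (fun y hy => by
    rw [← hLv]
    exact LinearMap.mem_ker.1 (hL (Submodule.subset_span ⟨y, hy, rfl⟩)))
  refine LinearMap.ext fun v => ?_
  rw [hLv v, LinearMap.zero_apply]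
  exact Finset.sum_eq_zero fun j _ => by rw [congrFun hcc j]; simp

theorem E_zeros {N : ℕ} {I : Set ℝ} {a f : Fin (N + 1) → ℝ → ℝ} (h : FundSys I (N + 1) a f)
    (hI : IsOpen I) {y : ℝ} (hy : y ∈ I) (s : ℝ) :
    ∀ j < N, iteratedDeriv j (comb f (s • FundSys.E f y)) y = 0 := by
  intro j hj
  have e := iter_lin hI h.smooth (s • FundSys.E f y) j hy
  have e2 : ∑ l, (s • FundSys.E f y) l * iteratedDeriv j (f l) y = 0 := by
    have := FundSys.E_zero f y j hj.le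
    rw [if_neg hj.ne] at this
    simp only [Pi.smul_apply, smul_eq_mul, mul_assoc]
    rw [← Finset.mul_sum, this, mul_zero]
  exact e.trans e2

theorem third_zero {k : ℕ} (hk : 1 ≤ k) {I : Set ℝ} (hI : IsOpen I) (hc : I.OrdConnected)
    {F : ℝ → (Fin (k + 1) → ℝ) → ℝ}
    (hF : ContDiffOn ℝ (⊤ : ℕ∞) (fun p : ℝ × (Fin (k + 1) → ℝ) => F p.1 p.2) (I ×ˢ univ))
    {a f : Fin (2 * k + 1) → ℝ → ℝ} (hf : FundSys I (2 * k + 1) a f) {m : ℕ} (hm : m ≤ 3 * k)
    {b : Fin m → ℝ → ℝ} (hb : ∀ j, ContinuousOn (b j) I)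
    (hinv : ∀ c, Sol I m b (fun x => F x (jet k (comb f c) x)))
    {x0 : ℝ} (hx0 : x0 ∈ I) (p h1 h2 h3 : Fin (2 * k + 1) → ℝ) :
    D3 (fun c => F x0 (jet k (comb f c) x0)) p h1 h2 h3 = 0 := by
  obtain ⟨δ, hδ, hsub, hloc⟩ := loc hI hb hx0
  set U1 := Ioo (x0 - δ) (x0 - δ / 2) with hU1
  set U2 := Ioo (x0 - δ / 2) x0 with hU2
  set U3 := Ioo x0 (x0 + δ) with hU3
  have hU1I : U1 ⊆ I := fun x hx => hsub ⟨hx.1.le, by linarith [hx.2]⟩
  have hU2I : U2 ⊆ I := fun x hx => hsub ⟨by linarith [hx.1], by linarith [hx.2]⟩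
  have hU3I : U3 ⊆ I := fun x hx => hsub ⟨by linarith [hx.1], hx.2.le⟩
  have key : ∀ y1 ∈ U1, ∀ y2 ∈ U2, ∀ y3 ∈ U3, ∀ p, ∀ s1 s2 s3 : ℝ,
      D3 (fun c => F x0 (jet k (comb f c) x0)) p (s1 • FundSys.E f y1) (s2 • FundSys.E f y2)
        (s3 • FundSys.E f y3) = 0 := by
    intro y1 hy1 y2 hy2 y3 hy3 p s1 s2 s3
    obtain ⟨hsm, hsol⟩ := third_smooth hI hF hf.smooth hinv p (s1 • FundSys.E f y1)
      (s2 • FundSys.E f y2) (s3 • FundSys.E f y3)
    have h12 : y1 < y2 := lt_trans hy1.2 hy2.1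
    have h23 : y2 < y3 := lt_trans hy2.2 hy3.1
    have z1 := third_order hI hF hf.smooth p (s1 • FundSys.E f y1)
      (s2 • FundSys.E f y2) (s3 • FundSys.E f y3) (hU1I hy1) (E_zeros hf hI (hU1I hy1) s1)
    have z2 := third_order hI hF hf.smooth p (s2 • FundSys.E f y2)
      (s1 • FundSys.E f y1) (s3 • FundSys.E f y3) (hU2I hy2) (E_zeros hf hI (hU2I hy2) s2)
    have z3 := third_order hI hF hf.smooth p (s3 • FundSys.E f y3)
      (s2 • FundSys.E f y2) (s1 • FundSys.E f y1) (hU3I hy3) (E_zeros hf hI (hU3I hy3) s3)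
    simp only [D3_swap12 _ p (s2 • FundSys.E f y2) (s1 • FundSys.E f y1)] at z2
    simp only [D3_swap13 _ p (s3 • FundSys.E f y3) (s2 • FundSys.E f y2)] at z3
    have hZ := Zs.three h12 h23 z1 z2 z3
    have hyI : ∀ i < 3 * k, (fun i => if i < k then y1 else if i < 2 * k then y2 else y3) i ∈ I := by
      intro i _
      beta_reduce
      split_ifs
      · exact hU1I hy1
      · exact hU2I hy2
      · exact hU3I hy3
    have := hloc _ hsm hsol y1 y3 hy1.1.le (h12.trans h23).le hy3.2.le (fun j hj => by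
      obtain ⟨z, hz1, hz2, hz3⟩ := Zs.exists_zero hI hc hsm hZ hyI (j := j) (by omega)
      refine ⟨z, ⟨?_, ?_⟩, hz3⟩
      · rwa [if_pos (by omega)] at hz1
      · rwa [if_neg (by omega), if_neg (by omega)] at hz2) x0
      ⟨by linarith [hy1.2], hy3.1.le⟩ 0 (Nat.zero_le _)
    rwa [iteratedDeriv_zero] at this
  have s1 := span_E hf hI hc isOpen_Ioo hU1I (nonempty_Ioo.2 (by linarith))
  have s2 := span_E hf hI hc isOpen_Ioo hU2I (nonempty_Ioo.2 (by linarith))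
  have s3 := span_E hf hI hc isOpen_Ioo hU3I (nonempty_Ioo.2 (by linarith))
  -- first variable
  have k1 : ∀ y2 ∈ U2, ∀ y3 ∈ U3, ∀ p h1, ∀ s2 s3 : ℝ,
      D3 (fun c => F x0 (jet k (comb f c) x0)) p h1 (s2 • FundSys.E f y2)
        (s3 • FundSys.E f y3) = 0 := by
    intro y2 hy2 y3 hy3 p h1 s2 s3
    have := D3_span (fun c => F x0 (jet k (comb f c) x0)) (FundSys.E f '' U1)
      (s2 • FundSys.E f y2) (s3 • FundSys.E f y3) (by
        rintro p s e ⟨y1, hy1, rfl⟩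
        exact key y1 hy1 y2 hy2 y3 hy3 p s s2 s3) (h1 := h1) (by rw [s1]; trivial) p 1
    rwa [one_smul] at this
  have k2 : ∀ y3 ∈ U3, ∀ p h1 h2, ∀ s3 : ℝ,
      D3 (fun c => F x0 (jet k (comb f c) x0)) p h1 h2 (s3 • FundSys.E f y3) = 0 := by
    intro y3 hy3 p h1 h2 s3
    have := D3_span (fun c => F x0 (jet k (comb f c) x0)) (FundSys.E f '' U2)
      h1 (s3 • FundSys.E f y3) (by
        rintro p s e ⟨y2, hy2, rfl⟩
        rw [D3_swap12]
        exact k1 y2 hy2 y3 hy3 p h1 s s3) (h1 := h2) (by rw [s2]; trivial) p 1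
    rwa [one_smul, D3_swap12] at this
  have := D3_span (fun c => F x0 (jet k (comb f c) x0)) (FundSys.E f '' U3)
    h2 h1 (by
      rintro p s e ⟨y3, hy3, rfl⟩
      rw [D3_swap13]
      exact k2 y3 hy3 p h1 h2 s) (h1 := h3) (by rw [s3]; trivial) p 1
  rwa [one_smul, D3_swap13] at this

/-- the jets of the elements of the space at a point are arbitrary -/
theorem jet_surj {N k : ℕ} (hkN : k ≤ N) {I : Set ℝ} {a f : Fin (N + 1) → ℝ → ℝ}
    (h : FundSys I (N + 1) a f) (hI : IsOpen I) (hc : I.OrdConnected) {x0 : ℝ} (hx0 : x0 ∈ I)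
    (v : Fin (k + 1) → ℝ) : ∃ c : Fin (N + 1) → ℝ, jet k (comb f c) x0 = v := by
  have hdet := h.det_ne hI hc hx0
  set w : Fin (N + 1) → ℝ := fun i => if hi : (i : ℕ) < k + 1 then v ⟨i, hi⟩ else 0 with hw
  refine ⟨((FundSys.W f x0)⁻¹).mulVec w, funext fun i => ?_⟩
  have e : (FundSys.W f x0).mulVec (((FundSys.W f x0)⁻¹).mulVec w) = w := by
    rw [Matrix.mulVec_mulVec, Matrix.mul_nonsing_inv _ (isUnit_iff_ne_zero.2 hdet),
      Matrix.one_mulVec]
  have e1 := congrFun e ⟨i, by omega⟩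
  have e2 : w ⟨i, by omega⟩ = v i := by
    simp only [hw]
    rw [dif_pos i.2]
  rw [e2] at e1
  rw [← e1]
  have e3 := iter_lin hI h.smooth (((FundSys.W f x0)⁻¹).mulVec w) i hx0
  refine e3.trans ?_
  simp only [Matrix.mulVec, dotProduct, FundSys.W, Matrix.of_apply]
  exact Finset.sum_congr rfl fun j _ => mul_comm _ _

/-- **Main theorem.** -/
theorem quadratic {k : ℕ} (hk : 1 ≤ k) {I : Set ℝ} (hI : IsOpen I) (hc : I.OrdConnected)
    {F : ℝ → (Fin (k + 1) → ℝ) → ℝ}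
    (hF : ContDiffOn ℝ (⊤ : ℕ∞) (fun p : ℝ × (Fin (k + 1) → ℝ) => F p.1 p.2) (I ×ˢ univ))
    {a f : Fin (2 * k + 1) → ℝ → ℝ} (hf : FundSys I (2 * k + 1) a f) {m : ℕ} (hm : m ≤ 3 * k)
    {b : Fin m → ℝ → ℝ} (hb : ∀ j, ContinuousOn (b j) I)
    (hinv : ∀ c, Sol I m b (fun x => F x (jet k (comb f c) x))) :
    ∃ (B : Fin (k + 1) → Fin (k + 1) → ℝ → ℝ) (A : Fin (k + 1) → ℝ → ℝ) (H : ℝ → ℝ),
      (∀ i j, ContDiffOn ℝ (⊤ : ℕ∞) (B i j) I) ∧ (∀ i, ContDiffOn ℝ (⊤ : ℕ∞) (A i) I) ∧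
      ContDiffOn ℝ (⊤ : ℕ∞) H I ∧ (∀ i j x, B i j x = B j i x) ∧
      ∀ x ∈ I, ∀ v, F x v = ∑ i, ∑ j, B i j x * v i * v j + ∑ i, A i x * v i + H x := by
  have hFv : ∀ v, ContDiffOn ℝ (⊤ : ℕ∞) (fun x => F x v) I := by
    intro v
    have h1 : ContDiffOn ℝ (⊤ : ℕ∞) (fun x : ℝ => (x, v)) I := contDiffOn_id.prodMk contDiffOn_const
    exact hF.comp h1 (fun x hx => ⟨hx, trivial⟩)
  refine ⟨fun i j x => 1 / 2 * (F x (Pi.single i 1 + Pi.single j 1) - F x (Pi.single i 1) -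
      F x (Pi.single j 1) + F x 0), fun i x => F x (Pi.single i 1) - F x 0 - 1 / 2 *
      (F x (Pi.single i 1 + Pi.single i 1) - F x (Pi.single i 1) - F x (Pi.single i 1) + F x 0),
      fun x => F x 0, ?_, ?_, hFv 0, ?_, ?_⟩
  · intro i j
    exact contDiffOn_const.mul ((((hFv _).sub (hFv _)).sub (hFv _)).add (hFv _))
  · intro i
    exact ((hFv _).sub (hFv _)).sub
      (contDiffOn_const.mul ((((hFv _).sub (hFv _)).sub (hFv _)).add (hFv _)))
  · intro i j x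
    beta_reduce
    rw [add_comm (Pi.single i (1 : ℝ) : Fin (k + 1) → ℝ) (Pi.single j 1)]
    ring
  · intro x0 hx0 v
    have hcont : Continuous (F x0) := by
      have h1 : Continuous (fun v : Fin (k + 1) → ℝ => (x0, v)) := by fun_prop
      have h2 : ContinuousOn (fun p : ℝ × (Fin (k + 1) → ℝ) => F p.1 p.2) (I ×ˢ univ) :=
        hF.continuousOn
      exact h2.comp_continuous h1 (fun v => ⟨hx0, trivial⟩)
    refine quad_of_D3 hcont ?_ v
    intro v1 v2 v3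
    obtain ⟨c1, hc1⟩ := jet_surj (k := k) (by omega) hf hI hc hx0 v1
    obtain ⟨c2, hc2⟩ := jet_surj (k := k) (by omega) hf hI hc hx0 v2
    obtain ⟨c3, hc3⟩ := jet_surj (k := k) (by omega) hf hI hc hx0 v3
    have hJ : ∀ c d : Fin (2 * k + 1) → ℝ, jet k (comb f (c + d)) x0 =
        jet k (comb f c) x0 + jet k (comb f d) x0 := by
      intro c d
      rw [comb_add]
      funext i
      exact iter_add' hI (comb_smooth hf.smooth c) (comb_smooth hf.smooth d) i hx0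
    have hJ0 : jet k (comb f 0) x0 = 0 := by
      have := hJ 0 0
      rw [add_zero] at this
      have h2 : jet k (comb f 0) x0 + 0 = jet k (comb f 0) x0 + jet k (comb f 0) x0 := by
        rw [add_zero]; exact this
      exact (add_left_cancel h2).symm
    have := third_zero hk hI hc hF hf hm hb hinv hx0 0 c1 c2 c3
    simp only [D3, hJ, hJ0, hc1, hc2, hc3] at this
    simp only [D3]
    exact this

end Pool.Agent.InvSub
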