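import Pool.Agent.InvSub.Curve

/-!
# Orders of vanishing
-/

set_option autoImplicit false

open Set Filter Topology

namespace Pool.Agent.InvSub

/-- Taylor's formula at a point where the first derivatives vanish -/
theorem taylor0 {I : Set ℝ} (hI : IsOpen I) {y : ℝ} (hy : y ∈ I) (r : ℕ) :
    ∀ {g : ℝ → ℝ} (_ : Sm I g) (_ : ∀ j < r, iteratedDeriv j g y = 0),
      ∃ C : ℝ, 0 ≤ C ∧ ∃ δ > 0, Icc (y - δ) (y + δ) ⊆ I ∧ ∀ x ∈ Icc (y - δ) (y + δ),
        |g x - iteratedDeriv r g y * (x - y) ^ r / r.factorial| ≤ C * |x - y| ^ (r + 1) := by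
  obtain ⟨δ0, hδ0, hsub⟩ : ∃ δ > 0, Icc (y - δ) (y + δ) ⊆ I := by
    obtain ⟨ε, hε, h⟩ := Metric.isOpen_iff.1 hI y hy
    refine ⟨ε / 2, by positivity, fun x hx => h ?_⟩
    rw [Metric.mem_ball, Real.dist_eq, abs_lt]
    constructor <;> linarith [hx.1, hx.2]
  induction r with
  | zero =>
    intro g hg _
    obtain ⟨C, hC⟩ := (isCompact_Icc (a := y - δ0) (b := y + δ0)).exists_bound_of_continuousOn
      ((hg.iter hI 1).continuousOn.mono hsub)
    refine ⟨|C|, abs_nonneg _, δ0, hδ0, hsub, fun x hx => ?_⟩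
    simp only [iteratedDeriv_zero, pow_zero, mul_one, Nat.factorial_zero, Nat.cast_one, div_one,
      zero_add, pow_one]
    have := Convex.norm_image_sub_le_of_norm_deriv_le (𝕜 := ℝ)
      (f := g) (C := |C|) (s := Icc (y - δ0) (y + δ0)) (x := y) (y := x)
      (fun z hz => by
        have := hg.hasDerivAt hI 0 (hsub hz)
        rw [iteratedDeriv_zero] at this
        exact this.differentiableAt)
      (fun z hz => by
        rw [← iteratedDeriv_one]
        exact (hC z hz).trans (le_abs_self _)) (convex_Icc _ _)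
      ⟨by linarith, by linarith⟩ hx
    exact this
  | succ r ih =>
    intro g hg h0
    obtain ⟨C, hC0, δ, hδ, hδI, hC⟩ := ih (hg.deriv hI) (fun j hj => by
      rw [← iteratedDeriv_succ']; exact h0 (j + 1) (by omega))
    refine ⟨C, hC0, δ, hδ, hδI, fun x hx => ?_⟩
    set c := iteratedDeriv (r + 1) g y with hcdef
    have hc' : iteratedDeriv r (deriv g) y = c := by rw [hcdef, iteratedDeriv_succ']
    rw [hc'] at hC
    set D : ℝ → ℝ := fun z => g z - c * (z - y) ^ (r + 1) / (r + 1).factorial with hD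
    have hder : ∀ z ∈ Icc (y - δ) (y + δ),
        HasDerivAt D (deriv g z - c * (z - y) ^ r / r.factorial) z := by
      intro z hz
      have h1 : HasDerivAt g (deriv g z) z := by
        have := hg.hasDerivAt hI 0 (hδI hz)
        rwa [iteratedDeriv_zero, iteratedDeriv_one] at this
      have h2 : HasDerivAt (fun z : ℝ => (z - y) ^ (r + 1)) (((r + 1 : ℕ) : ℝ) * (z - y) ^ r) z := by
        have h := ((hasDerivAt_id' z).sub_const y).fun_pow (r + 1)
        refine h.congr_deriv ?_
        rw [Nat.add_sub_cancel, mul_one]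
      have h3 := (h2.const_mul c).div_const ((r + 1).factorial : ℝ)
      refine (h1.fun_sub h3).congr_deriv ?_
      rw [Nat.factorial_succ]
      push_cast
      have : (r.factorial : ℝ) ≠ 0 := by exact_mod_cast r.factorial_ne_zero
      field_simp
    have hDy : D y = 0 := by
      have := h0 0 (by omega)
      rw [iteratedDeriv_zero] at this
      simp [hD, this]
    set M := C * |x - y| ^ (r + 1) with hM
    -- bound of the derivative on the segment between y and x
    have hseg : ∀ z ∈ uIcc y x, z ∈ Icc (y - δ) (y + δ) ∧ |z - y| ≤ |x - y| := by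
      intro z hz
      rcases le_total y x with hyx | hyx
      · rw [uIcc_of_le hyx] at hz
        refine ⟨⟨by linarith [hz.1], by linarith [hz.2, hx.2]⟩, ?_⟩
        rw [abs_of_nonneg (by linarith [hz.1]), abs_of_nonneg (by linarith)]
        linarith [hz.2]
      · rw [uIcc_of_ge hyx] at hz
        refine ⟨⟨by linarith [hz.1, hx.1], by linarith [hz.2]⟩, ?_⟩
        rw [abs_of_nonpos (by linarith [hz.2]), abs_of_nonpos (by linarith)]
        linarith [hz.1]
    have := Convex.norm_image_sub_le_of_norm_deriv_le (𝕜 := ℝ)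
      (f := D) (C := M) (s := uIcc y x) (x := y) (y := x)
      (fun z hz => (hder z (hseg z hz).1).differentiableAt)
      (fun z hz => by
        rw [(hder z (hseg z hz).1).deriv]
        refine (hC z (hseg z hz).1).trans ?_
        exact mul_le_mul_of_nonneg_left (pow_le_pow_left₀ (abs_nonneg _) (hseg z hz).2 _) hC0)
      (convex_uIcc _ _) left_mem_uIcc right_mem_uIcc
    rw [hDy, sub_zero] at this
    calc |g x - c * (x - y) ^ (r + 1) / (r + 1).factorial| = ‖D x‖ := rfl
      _ ≤ M * ‖x - y‖ := this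
      _ = C * |x - y| ^ (r + 1 + 1) := by rw [hM, Real.norm_eq_abs, pow_succ |x - y| (r + 1)]; ring

/-- a function with a zero of order `r` is `O(|x-y|^r)` -/
theorem bound_of_zero {I : Set ℝ} (hI : IsOpen I) {y : ℝ} (hy : y ∈ I) (r : ℕ)
    {g : ℝ → ℝ} (hg : Sm I g) (h0 : ∀ j < r, iteratedDeriv j g y = 0) :
    ∃ C : ℝ, 0 ≤ C ∧ ∀ᶠ x in 𝓝 y, |g x| ≤ C * |x - y| ^ r := by
  obtain ⟨C, hC0, δ, hδ, -, hC⟩ := taylor0 hI hy r hg h0
  refine ⟨|iteratedDeriv r g y| / r.factorial + C * δ, by positivity, ?_⟩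
  filter_upwards [Icc_mem_nhds (show y - δ < y by linarith) (show y < y + δ by linarith)] with x hx
  have h1 := hC x hx
  have hxy : |x - y| ≤ δ := by rw [abs_le]; constructor <;> linarith [hx.1, hx.2]
  have h2 : |g x| ≤ |iteratedDeriv r g y * (x - y) ^ r / r.factorial| + C * |x - y| ^ (r + 1) := by
    have := abs_sub_abs_le_abs_sub (g x) (iteratedDeriv r g y * (x - y) ^ r / r.factorial)
    linarith
  rw [abs_div, abs_mul, abs_pow, Nat.abs_cast] at h2
  refine h2.trans ?_
  have h3 : C * |x - y| ^ (r + 1) ≤ C * δ * |x - y| ^ r := by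
    rw [pow_succ]
    have : |x - y| ^ r * |x - y| ≤ |x - y| ^ r * δ := mul_le_mul_of_nonneg_left hxy (by positivity)
    calc C * (|x - y| ^ r * |x - y|) ≤ C * (|x - y| ^ r * δ) := mul_le_mul_of_nonneg_left this hC0
      _ = C * δ * |x - y| ^ r := by ring
  have h4 : |iteratedDeriv r g y| * |x - y| ^ r / r.factorial =
      |iteratedDeriv r g y| / r.factorial * |x - y| ^ r := by ring
  rw [h4, add_mul]
  linarith

/-- conversely, a smooth function which is `O(|x-y|^r)` has a zero of order `r` -/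
theorem zero_of_bound {I : Set ℝ} (hI : IsOpen I) {y : ℝ} (hy : y ∈ I) (r : ℕ)
    {g : ℝ → ℝ} (hg : Sm I g) {K : ℝ} (hK : ∀ᶠ x in 𝓝 y, |g x| ≤ K * |x - y| ^ r) :
    ∀ j < r, iteratedDeriv j g y = 0 := by
  intro j
  induction j using Nat.strong_induction_on with
  | _ j ih =>
    intro hj
    obtain ⟨C, hC0, δ, hδ, -, hC⟩ := taylor0 hI hy j hg (fun i hi => ih i hi (by omega))
    by_contra hne
    set c := iteratedDeriv j g y with hc
    have hcpos : 0 < |c| := abs_pos.2 hne
    have hfac : (0 : ℝ) < j.factorial := by exact_mod_cast j.factorial_pos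
    -- |c| |x-y|^j / j! <= K |x-y|^r + C |x-y|^(j+1)
    have hev : ∀ᶠ x in 𝓝[≠] y, |c| / j.factorial ≤ (|K| + C) * |x - y| := by
      have h1 : ∀ᶠ x in 𝓝 y, x ∈ Icc (y - δ) (y + δ) :=
        Icc_mem_nhds (show y - δ < y by linarith) (show y < y + δ by linarith)
      have h2 : ∀ᶠ x in 𝓝 y, |x - y| ≤ 1 := by
        have : Icc (y - 1) (y + 1) ∈ 𝓝 y := Icc_mem_nhds (by linarith) (by linarith)
        filter_upwards [this] with x hx
        rw [abs_le]; constructor <;> linarith [hx.1, hx.2]
      filter_upwards [nhdsWithin_le_nhds h1, nhdsWithin_le_nhds h2, nhdsWithin_le_nhds hK,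
        self_mem_nhdsWithin] with x hx1 hx2 hx3 hx4
      have hpos : 0 < |x - y| := abs_pos.2 (sub_ne_zero.2 hx4)
      have h3 := hC x hx1
      have h4 : |c * (x - y) ^ j / j.factorial| ≤ |g x| + C * |x - y| ^ (j + 1) := by
        have := abs_sub_abs_le_abs_sub (c * (x - y) ^ j / j.factorial) (g x)
        rw [abs_sub_comm] at this
        linarith
      rw [abs_div, abs_mul, abs_pow, Nat.abs_cast] at h4
      have h5 : |g x| ≤ |K| * |x - y| ^ (j + 1) := by
        refine hx3.trans ?_
        have : |x - y| ^ r ≤ |x - y| ^ (j + 1) := pow_le_pow_of_le_one hpos.le hx2 (by omega)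
        calc K * |x - y| ^ r ≤ |K| * |x - y| ^ r :=
              mul_le_mul_of_nonneg_right (le_abs_self K) (by positivity)
          _ ≤ |K| * |x - y| ^ (j + 1) := mul_le_mul_of_nonneg_left this (abs_nonneg _)
      have h6 : |c| / j.factorial * |x - y| ^ j ≤ ((|K| + C) * |x - y|) * |x - y| ^ j := by
        calc |c| / j.factorial * |x - y| ^ j = |c| * |x - y| ^ j / j.factorial := by ring
          _ ≤ |K| * |x - y| ^ (j + 1) + C * |x - y| ^ (j + 1) := by linarith
          _ = ((|K| + C) * |x - y|) * |x - y| ^ j := by rw [pow_succ]; ring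
      exact le_of_mul_le_mul_right h6 (by positivity)
    have hlim : Tendsto (fun x => (|K| + C) * |x - y|) (𝓝[≠] y) (𝓝 ((|K| + C) * |y - y|)) := by
      apply Tendsto.mono_left _ nhdsWithin_le_nhds
      exact (continuous_const.mul ((continuous_id.sub continuous_const).abs)).tendsto y
    rw [sub_self, abs_zero, mul_zero] at hlim
    have := ge_of_tendsto hlim hev
    have h7 : 0 < |c| / j.factorial := by positivity
    linarith

/-- the jet of order `k` of a function -/
noncomputable def jet (k : ℕ) (u : ℝ → ℝ) (x : ℝ) : Fin (k + 1) → ℝ := fun i => iteratedDeriv i u x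

theorem jet_continuousAt {I : Set ℝ} (hI : IsOpen I) {u : ℝ → ℝ} (hu : Sm I u) (k : ℕ) {x : ℝ}
    (hx : x ∈ I) : ContinuousAt (jet k u) x := by
  refine continuousAt_pi.2 fun i => ?_
  exact ((hu.iter hI i).continuousOn).continuousAt (hI.mem_nhds hx)

/-- If `v` has a zero of order `2k` at `y`, then adding `v` changes `F[u]` only in order `k`. -/
theorem order_diff {I : Set ℝ} (hI : IsOpen I) {k : ℕ} {F : ℝ → (Fin (k + 1) → ℝ) → ℝ}
    (hF : ContDiffOn ℝ (⊤ : ℕ∞) (fun p : ℝ × (Fin (k + 1) → ℝ) => F p.1 p.2) (I ×ˢ univ))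
    {u v : ℝ → ℝ} (hu : Sm I u) (hv : Sm I v) {y : ℝ} (hy : y ∈ I)
    (h0 : ∀ j < 2 * k, iteratedDeriv j v y = 0)
    (hs1 : Sm I (fun x => F x (jet k (fun x => u x + v x) x)))
    (hs2 : Sm I (fun x => F x (jet k u x))) :
    ∀ j < k, iteratedDeriv j (fun x => F x (jet k (fun x => u x + v x) x)) y =
      iteratedDeriv j (fun x => F x (jet k u x)) y := by
  rcases Nat.eq_zero_or_pos k with rfl | hk
  · intro j hj; omega
  have hadd : ∀ x ∈ I, jet k (fun x => u x + v x) x = jet k u x + jet k v x := by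
    intro x hx
    funext i
    exact iter_add' hI hu hv i hx
  have hvy : jet k v y = 0 := by
    funext i
    exact h0 i (by omega)
  -- the bound
  obtain ⟨K, hKb⟩ : ∃ K : ℝ, ∀ᶠ x in 𝓝 y, |F x (jet k (fun x => u x + v x) x) -
      F x (jet k u x)| ≤ K * |x - y| ^ k := by
    have hFat : ContDiffAt ℝ 1 (fun p : ℝ × (Fin (k + 1) → ℝ) => F p.1 p.2) (y, jet k u y) := by
      refine (hF.contDiffAt ((hI.prod isOpen_univ).mem_nhds ⟨hy, trivial⟩)).of_le ?_
      exact_mod_cast le_top
    obtain ⟨L, t, ht, hL⟩ := hFat.exists_lipschitzOnWith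
    have hc1 : ContinuousAt (fun x => (x, jet k u x)) y :=
      continuousAt_id.prodMk (jet_continuousAt hI hu k hy)
    have hc2 : ContinuousAt (fun x => (x, jet k u x + jet k v x)) y :=
      continuousAt_id.prodMk ((jet_continuousAt hI hu k hy).add (jet_continuousAt hI hv k hy))
    have e1 : ∀ᶠ x in 𝓝 y, (x, jet k u x) ∈ t := hc1 ht
    have e2 : ∀ᶠ x in 𝓝 y, (x, jet k u x + jet k v x) ∈ t := by
      apply hc2
      simpa [hvy] using ht
    have hjet : ∃ C : ℝ, 0 ≤ C ∧ ∀ᶠ x in 𝓝 y, ‖jet k v x‖ ≤ C * |x - y| ^ k := by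
      have : ∀ i : Fin (k + 1), ∃ C : ℝ, 0 ≤ C ∧ ∀ᶠ x in 𝓝 y,
          |iteratedDeriv i v x| ≤ C * |x - y| ^ k := by
        intro i
        refine bound_of_zero hI hy k (hv.iter hI i) (fun j hj => ?_)
        have e : iteratedDeriv j (iteratedDeriv i v) y = iteratedDeriv (j + i) v y := by
          rw [iteratedDeriv_eq_iterate, iteratedDeriv_eq_iterate, iteratedDeriv_eq_iterate,
            Function.iterate_add_apply]
        rw [e]
        exact h0 (j + i) (by omega)
      choose C hC0 hC using this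
      refine ⟨∑ i, C i, Finset.sum_nonneg fun i _ => hC0 i, ?_⟩
      have hall : ∀ᶠ x in 𝓝 y, ∀ i : Fin (k + 1), |iteratedDeriv i v x| ≤ C i * |x - y| ^ k :=
        Filter.eventually_all.2 hC
      filter_upwards [hall] with x hx
      rw [pi_norm_le_iff_of_nonneg (mul_nonneg (Finset.sum_nonneg fun i _ => hC0 i)
        (by positivity))]
      intro i
      refine (hx i).trans ?_
      exact mul_le_mul_of_nonneg_right
        (Finset.single_le_sum (fun j _ => hC0 j) (Finset.mem_univ i)) (by positivity)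
    obtain ⟨C, hC0, hC⟩ := hjet
    refine ⟨L * C, ?_⟩
    filter_upwards [e1, e2, hC, hI.mem_nhds hy] with x hx1 hx2 hx3 hx4
    rw [hadd x hx4]
    have := hL.dist_le_mul _ hx2 _ hx1
    rw [Real.dist_eq] at this
    refine this.trans ?_
    have hd : dist (x, jet k u x + jet k v x) (x, jet k u x) = ‖jet k v x‖ := by
      rw [Prod.dist_eq, dist_self, dist_eq_norm, add_sub_cancel_left, max_eq_right (norm_nonneg _)]
    rw [hd, mul_assoc]
    exact mul_le_mul_of_nonneg_left hx3 L.2
  have hsm : Sm I (fun x => F x (jet k (fun x => u x + v x) x) - F x (jet k u x)) := by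
    unfold Sm at *
    exact hs1.sub hs2
  intro j hj
  have hz := zero_of_bound hI hy k hsm hKb j hj
  have e := iter_add' hI hsm hs2 j hy
  have e2 : (fun x => (F x (jet k (fun x => u x + v x) x) - F x (jet k u x)) + F x (jet k u x)) =
      fun x => F x (jet k (fun x => u x + v x) x) := by
    funext x; ring
  rw [e2, hz, zero_add] at e
  exact e

end Pool.Agent.InvSub
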